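import Pool.Agent.Lib.MP_823829_an.LI.Flat
import Pool.Agent.Lib.MP_823829_an.BR4
import Pool.Agent.Lib.MP_823829_an.MThin
import Pool.Agent.Lib.MP_823829_an.Geo

/-! A meromorphic graph that is locally irreducible over the Hartogs figure is locally irreducible
outside a closed set of dimension at most two. -/

namespace Pool.Agent.Lib.MP_823829_an

open Set Metric Filter MeasureTheory ContinuousLinearMap
open scoped Topology ENNReal NNReal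

variable {X : Type*} [TopologicalSpace X] {m : ℕ} {a : Atl X m}

section

variable {T : Type} [NormedAddCommGroup T] [NormedSpace ℂ T] [FiniteDimensional ℂ T]

omit [FiniteDimensional ℂ T] in
theorem LIrrAt.congr {Γ Γ' : Set (T × X)} {p : T × X} (h : LIrrAt a Γ p)
    (he : ∀ᶠ q in 𝓝 p, q ∈ Γ ↔ q ∈ Γ') : LIrrAt a Γ' p := fun Z₁ Z₂ h₁ h₂ h₃ =>
  (h Z₁ Z₂ h₁ h₂ ((he.and h₃).mono fun _ hq => hq.1.trans hq.2)).imp
    (fun h4 => (he.and h4).mono fun _ hq => hq.1.symm.trans hq.2)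
    fun h4 => (he.and h4).mono fun _ hq => hq.1.symm.trans hq.2

theorem lirrAt_iff {Γ : Set (T × X)} {p : T × X} (h : AnX a Γ p) {i : Fin a.n}
    (hi : p.2 ∈ (a.e i).source) : LIrrAt a Γ p ↔ LI.Irr (cs a i Γ) (p.1, a.e i p.2) := by
  have ht : ∀ᶠ q : T × (Fin m → ℂ) in 𝓝 (p.1, a.e i p.2), q.2 ∈ (a.e i).target :=
    continuousAt_snd.preimage_mem_nhds ((a.e i).open_target.mem_nhds ((a.e i).map_source hi))
  constructor
  · intro hl Z₁ Z₂ h₁ h₂ h₃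
    let G : Set (T × (Fin m → ℂ)) → Set (T × X) := fun Z => Γ ∩ {q | (q.1, a.e i q.2) ∈ Z}
    have hG : ∀ Z, ∀ q : T × (Fin m → ℂ), q.2 ∈ (a.e i).target →
        ((q.1, (a.e i).symm q.2) ∈ G Z ↔ q ∈ cs a i Γ ∩ Z) := fun Z q hq => by
      simp [G, cs, hq, (a.e i).right_inv hq]
    have hA : ∀ Z, AnAt Z (p.1, a.e i p.2) → AnX a (G Z) p := fun Z hZ =>
      AnX.of_chart i hi (((h i hi).inter hZ).congr (ht.mono fun q hq =>
        ⟨fun h4 => ⟨hq, (hG Z q hq).2 h4⟩, fun h4 => (hG Z q hq).1 h4.2⟩))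
    have hB : ∀ Z, (∀ᶠ q in 𝓝 p, q ∈ Γ ↔ q ∈ G Z) → (p.1, a.e i p.2) ∈ LI.Inn (cs a i Γ) Z :=
      fun Z hZ => (ht.and ((eventually_chart hi).1 hZ)).mono fun q hq h4 =>
        ((hG Z q hq.1).1 (hq.2.1 h4.2)).2
    refine (hl _ _ (hA _ h₁) (hA _ h₂) ((eventually_chart hi).2 ?_)).imp (hB _) (hB _)
    filter_upwards [ht, h₃] with q hq h4
    refine ⟨fun h5 => (h4 ⟨hq, h5⟩).imp (fun h6 => (hG _ q hq).2 ⟨⟨hq, h5⟩, h6⟩)
      fun h6 => (hG _ q hq).2 ⟨⟨hq, h5⟩, h6⟩, fun h5 => h5.elim And.left And.left⟩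
  · intro hl Z₁ Z₂ h₁ h₂ h₃
    have h4 := (eventually_chart hi).1 h₃
    refine (hl _ _ (h₁ i hi) (h₂ i hi) (h4.mono fun q hq h5 =>
      (hq.1 h5.2).imp (fun h6 => ⟨h5.1, h6⟩) fun h6 => ⟨h5.1, h6⟩)).imp
      (fun h5 => (eventually_chart hi).2 ?_) fun h5 => (eventually_chart hi).2 ?_
    · filter_upwards [ht, h4, h5] with q hq h6 h7
      exact ⟨fun h8 => (h7 ⟨hq, h8⟩).2, fun h8 => h6.2 (Or.inl h8)⟩
    · filter_upwards [ht, h4, h5] with q hq h6 h7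
      exact ⟨fun h8 => (h7 ⟨hq, h8⟩).2, fun h8 => h6.2 (Or.inr h8)⟩

end

variable [T2Space X] [CompactSpace X] [Nonempty X]

theorem li_polar {D : Set C4} {Γ : Set (C4 × X)} (h : MG a D Γ) (π : C4 →L[ℂ] C2) {F : Set C2}
    (hF : IsOpen F) (hI : ∀ p ∈ Γ, π p.1 ∈ F → LIrrAt a Γ p) :
    Polar {z ∈ closure F | ∃ p ∈ closure {p ∈ Γ | ¬ LIrrAt a Γ p}, p.1 ∈ D ∧ π p.1 = z} := by
  have h1 : ∀ i, ∀ q ∈ cs a i Γ, LIrrAt a Γ (q.1, (a.e i).symm q.2) ↔ LI.Irr (cs a i Γ) q := by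
    intro i q hq
    rw [lirrAt_iff (h.an.2 _ (h.an.1 _ hq.2)) (i := i) ((a.e i).map_target hq.1)]
    simp [(a.e i).right_inv hq.1]
  refine (polar_iUnion fun i => LI.flat (π.comp (fst ℂ C4 (Fin m → ℂ))) (h.an.locAn i)
    (rd_C4 ▸ (h.gs i).pure) (rd_C4 ▸ (h.gs i).sf) hF
    fun q hq hq' => (h1 i q hq).1 (hI _ hq.2 hq')).mono ?_
  rintro _ ⟨h2, p, hp, hpD, rfl⟩
  obtain ⟨i, hi⟩ := a.cov p.2
  have h3 : p ∈ Γ := (h.an.2 p hpD).mem_of_closure (closure_mono (sep_subset _ _) hp)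
  have h4 := (mem_closure_cs (Γ := {p ∈ Γ | ¬ LIrrAt a Γ p}) (q := (p.1, a.e i p.2))
    ((a.e i).map_source hi)).2 (by simpa [(a.e i).left_inv hi] using hp)
  refine mem_iUnion.2 ⟨i, (p.1, a.e i p.2), ⟨(mem_cs hi).2 h3, h2, closure_mono ?_ h4⟩, rfl⟩
  exact fun q hq => ⟨⟨hq.1, hq.2.1⟩, fun h5 => hq.2.2 ((h1 i q ⟨hq.1, hq.2.1⟩).2 h5)⟩

theorem li_addon {r : ℝ} (hr1 : r < 1) {D : Set C4} {Γ Γ' : Set (C4 × X)}
    (hH : hartogs r ⊆ D) (hP : D ⊆ polydisc) (hn : ∀ t : ℝ, 2 < t → μH[t] (polydisc \ D) = 0)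
    (h : MG a D Γ') (hag : Agree Γ' Γ (hartogs r)) (hl : LIrr a Γ) :
    ∃ D₂ : Set C4, IsOpen D₂ ∧ hartogs r ⊆ D₂ ∧ D₂ ⊆ D ∧
      (∀ t : ℝ, 2 < t → μH[t] (polydisc \ D₂) = 0) ∧ LIrr a (res Γ' D₂) := by
  have oH : IsOpen (hartogs r) := by rw [hartogs_eq]; exact isOpen_hart _ _ _
  set N := {p ∈ Γ' | ¬ LIrrAt a Γ' p} with hN
  set B := Prod.fst '' closure N with hB
  have cB : IsClosed B := isClosedMap_fst_of_compactSpace _ isClosed_closure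
  have hHB : ∀ t ∈ hartogs r, t ∉ B := by
    rintro _ ht ⟨p, hp, rfl⟩
    obtain ⟨q, hq, hq'⟩ := mem_closure_iff_nhds.1 hp _
      (continuousAt_fst.preimage_mem_nhds (oH.mem_nhds ht))
    refine hq'.2 ((hl q ((hag _ hq _).1 hq'.1)).congr ?_)
    exact mem_of_superset (continuousAt_fst.preimage_mem_nhds (oH.mem_nhds hq))
      fun x hx => (hag _ hx _).symm
  have o₂ : IsOpen (D \ B) := h.op.sdiff cB
  refine ⟨D \ B, o₂, fun t ht => ⟨hH ht, hHB t ht⟩, sdiff_subset, fun t ht => ?_, fun p hp => ?_⟩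
  swap
  · refine (not_not.1 fun h1 => hp.2.2 ⟨p, subset_closure ⟨hp.1, h1⟩, rfl⟩ :
      LIrrAt a Γ' p).congr (mem_of_superset (continuousAt_fst.preimage_mem_nhds (o₂.mem_nhds hp.2))
        fun x hx => ⟨fun h1 => ⟨h1, hx⟩, fun h1 => h1.1⟩)
  have h1 := min_le_left t 3
  have h2 := min_le_right t 3
  have h3 : 2 < min t 3 := lt_min ht (by norm_num)
  set s := (2 + min t 3) / 2 with hs
  have hs2 : 2 < s := by linarith
  refine GM.null_of_tilts (s := s) (by linarith) (by linarith)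
    (by rw [PT.finrank_E2]; push_cast; linarith) o₂ fun x hx => ?_
  have hx1 : ‖x‖ < 1 := max_lt (mem_ball_zero_iff.1 hx.1.1) (mem_ball_zero_iff.1 hx.1.2)
  set ε := min ((1 - ‖x‖) / 4) ((1 - r) / 2) with hε
  have hε1 : ε ≤ (1 - ‖x‖) / 4 := min_le_left _ _
  have hε2 : ε ≤ (1 - r) / 2 := min_le_right _ _
  refine ⟨(1 - ‖x‖) / 2, by linarith, ε, lt_min (by linarith) (by linarith), fun l hl' => ?_⟩
  set π : C4 →L[ℂ] C2 := fst ℂ C2 C2 + l.comp (snd ℂ C2 C2) with hπ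
  have hπ1 : ∀ p : C4, ‖p.2‖ ≤ 1 → ‖π p‖ < ‖p.1‖ + ε ∧ ‖p.1‖ < ‖π p‖ + ε := by
    intro p hp
    have h4 : ‖l p.2‖ < ε := (l.le_opNorm _).trans_lt
      ((mul_le_of_le_one_right (norm_nonneg _) hp).trans_lt hl')
    have h5 := norm_add_le p.1 (l p.2)
    have h6 := norm_sub_le (p.1 + l p.2) (l p.2)
    rw [add_sub_cancel_right] at h6
    exact ⟨h5.trans_lt (by linarith), h6.trans_lt (add_lt_add_right h4 _)⟩
  set K : Set C4 := closedBall 0 1 ×ˢ closedBall 0 r with hK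
  have cK : IsCompact K := (isCompact_closedBall _ _).prod (isCompact_closedBall _ _)
  have hK1 : ∀ p ∈ K, ‖p.2‖ < 1 := fun p hp => (mem_closedBall_zero_iff.1 hp.2).trans_lt hr1
  have hK2 : ∀ p ∈ polydisc, p ∉ hartogs r → p ∈ K := fun p hp hp' =>
    ⟨ball_subset_closedBall hp.1, by_contra fun h4 => hp' (Or.inr ⟨hp.1, hp.2, h4⟩)⟩
  set V : Set C2 := ball 0 (1 - ε) with hV
  set R := π '' (K \ D) with hR
  have hR0 : ∀ u : ℝ, 2 < u → μH[u] (R ∩ V) = 0 := fun u hu => by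
    refine measure_mono_null ?_ (null_image_clm (by linarith) (hn u hu) π)
    rintro _ ⟨⟨p, hp, rfl⟩, h4⟩
    have h5 := (hπ1 p (hK1 p hp.1).le).2
    rw [mem_ball_zero_iff] at h4
    exact ⟨p, ⟨⟨mem_ball_zero_iff.2 (by linarith), mem_ball_zero_iff.2 (hK1 p hp.1)⟩, hp.2⟩, rfl⟩
  have r3 : rd C2 - 1 = 3 := by rw [rd_C2]; norm_num
  have oW : IsOpen (V \ R) := isOpen_ball.sdiff ((cK.diff h.op).image π.continuous).isClosed
  have cW := (conn isOpen_ball (convex_ball _ _).isPreconnected oW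
    (slim_of_null (r3 ▸ hR0 3 (by norm_num)))).1
  set F := (V \ R) \ π '' (K ∩ B) with hF
  have oF : IsOpen F := oW.sdiff ((cK.inter_right cB).image π.continuous).isClosed
  have h0 : ∀ p ∈ K, π p = 0 → p ∈ hartogs r := fun p hp h4 => by
    have h5 := (hπ1 p (hK1 p hp).le).2
    rw [h4, norm_zero] at h5
    exact Or.inl ⟨mem_ball_zero_iff.2 (by linarith), mem_ball_zero_iff.2 (hK1 p hp)⟩
  have hF0 : (0 : C2) ∈ F :=
    ⟨⟨mem_ball_self (by linarith [norm_nonneg x]), fun ⟨p, hp, h4⟩ => hp.2 (hH (h0 p hp.1 h4))⟩,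
      fun ⟨p, hp, h4⟩ => hHB p (h0 p hp.1 h4) hp.2⟩
  have pF : Polar ((closure F \ F) ∩ (V \ R)) := by
    refine (li_polar h π oF fun p hp hp' => by_contra fun h4 => ?_).mono ?_
    · have h5 : p.1 ∈ B := ⟨p, subset_closure ⟨hp, h4⟩, rfl⟩
      exact hp'.2 ⟨p.1, ⟨hK2 _ (hP (h.an.1 p hp)) fun h6 => hHB _ h6 h5, h5⟩, rfl⟩
    · rintro z ⟨⟨h4, h5⟩, h6⟩
      obtain ⟨_, ⟨h7, p, hp, rfl⟩, rfl⟩ := not_not.1 fun h7 => h5 ⟨h6, h7⟩
      exact ⟨h4, p, hp, by_contra fun h8 => h6.2 ⟨p.1, ⟨h7, h8⟩, rfl⟩, rfl⟩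
  have oF' : IsOpen ((V \ R) \ (closure F \ F)) :=
    oW.sdiff (isClosed_closure.sdiff oF)
  have cF := (conn oW cW oF' (slim_of_null (r3 ▸ pt_hs oW oF' pF (by norm_num)))).1
  have hsub : (V \ R) \ (closure F \ F) ⊆ F := cF.subset_left_of_subset_union oF
    isClosed_closure.isOpen_compl
    (disjoint_compl_right.mono_left subset_closure)
    (fun z hz => (em (z ∈ F)).imp_right fun h4 (h5 : z ∈ closure F) => hz.2 ⟨h5, h4⟩)
    ⟨0, ⟨hF0.1, fun h4 => h4.2 hF0⟩, hF0⟩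
  refine measure_mono_null ?_ (measure_union_null (hR0 s hs2) (pt_hs oW oF' pF hs2))
  rintro _ ⟨p, hp, rfl⟩
  have h4 : ‖p‖ < ‖x‖ + (1 - ‖x‖) / 2 := norm_lt_of_mem_ball hp.1
  have h5 := norm_fst_le p
  have h6 := norm_snd_le p
  have h7 : p ∈ K := hK2 p ⟨mem_ball_zero_iff.2 (by linarith), mem_ball_zero_iff.2 (by linarith)⟩
    fun h7 => hp.2 ⟨hH h7, hHB p h7⟩
  have h8 : π p ∈ V := mem_ball_zero_iff.2 (by linarith [(hπ1 p (by linarith)).1])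
  by_cases h9 : π p ∈ R
  · exact Or.inl ⟨h9, h8⟩
  · refine Or.inr ⟨by_contra fun h10 => (hsub ⟨⟨h8, h9⟩, h10⟩).2 ⟨p, ⟨h7, ?_⟩, rfl⟩, h8, h9⟩
    exact by_contra fun h11 => hp.2 ⟨by_contra fun h12 => h9 ⟨p, ⟨h7, h12⟩, rfl⟩, h11⟩

end Pool.Agent.Lib.MP_823829_an
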