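import Pool.Agent.Lib.MP_823829_an.LI.Irr

/-! A local splitting of a branched cover extends to the whole cell. -/

namespace Pool.Agent.Lib.MP_823829_an.LI

open Set Metric Filter MeasureTheory
open scoped Topology ENNReal NNReal

variable {A P : Type} [NormedAddCommGroup A] [NormedSpace ℂ A] [FiniteDimensional ℂ A]
  [NormedAddCommGroup P] [NormedSpace ℂ P] [FiniteDimensional ℂ P]

theorem radial {η x s : ℝ} (hη : 0 < η) (hx : η / 2 < x) (hs : s ∈ Icc (0 : ℝ) 1) :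
    0 ≤ 1 - s * (1 - min 1 (3 * η / 4 / x)) ∧ 1 - s * (1 - min 1 (3 * η / 4 / x)) ≤ 1 ∧
      η / 2 < (1 - s * (1 - min 1 (3 * η / 4 / x))) * x ∧ min 1 (3 * η / 4 / x) * x < η := by
  have hx0 : 0 < x := by linarith
  have h1 := min_le_left 1 (3 * η / 4 / x)
  have h2 : min 1 (3 * η / 4 / x) * x = min x (3 * η / 4) := by
    rw [min_mul_of_nonneg _ _ hx0.le, one_mul, div_mul_cancel₀ _ hx0.ne']
  have h3 : 0 ≤ min 1 (3 * η / 4 / x) := le_min zero_le_one (by positivity)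
  have h4 : η / 2 < min x (3 * η / 4) := lt_min hx (by linarith)
  have h5 := min_le_right x (3 * η / 4)
  obtain ⟨hs0, hs1⟩ := hs
  refine ⟨by nlinarith, by nlinarith, ?_, by linarith⟩
  have h6 : 0 ≤ (1 - s) * ((1 - min 1 (3 * η / 4 / x)) * x) :=
    mul_nonneg (by linarith) (mul_nonneg (by linarith) hx0.le)
  nlinarith

/-- Transport from a small annulus around `a` to a Hartogs type domain. -/
theorem spread {Z Q : Set A} {L : A →L[ℂ] P × ℂ} {B₀ B₁ : Set P} {D An : Set ℂ} {p : P} {a : ℂ}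
    {η : ℝ} {d : ℕ} (hη : 0 < η) (o₀ : IsOpen B₀)
    (o₁ : IsOpen B₁) (oD : IsOpen D) (oA : IsOpen An) (c₀ : Convex ℝ B₀) (c₁ : Convex ℝ B₁)
    (cD : Convex ℝ D) (p₀ : p ∈ B₀) (p₁ : p ∈ B₁) (ha : a ∈ D) (hb : ball a η ⊆ D)
    (hA : An ⊆ D \ ball a η)
    (hg : ∀ t ∈ B₁ ×ˢ (D \ closedBall a (η / 2)) ∪ B₀ ×ˢ An, Good Z L d t)
    (hQ : Clo Z Q L (B₁ ×ˢ (ball a η \ closedBall a (η / 2)))) :
    ∃ Q' : Set A, Clo Z Q' L (B₁ ×ˢ (D \ closedBall a (η / 2)) ∪ B₀ ×ˢ An) ∧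
      ∀ q ∈ Z, L q ∈ B₁ ×ˢ (ball a η \ closedBall a (η / 2)) → (q ∈ Q' ↔ q ∈ Q) := by
  set M := B₁ ×ˢ (D \ closedBall a (η / 2)) ∪ B₀ ×ˢ An with hM
  have hn : ∀ t ∈ M, t.2 ∈ D ∧ η / 2 < ‖t.2 - a‖ := by
    rintro t (ht | ht)
    · exact ⟨ht.2.1, by simpa [dist_eq_norm] using ht.2.2⟩
    · have h1 : η ≤ ‖t.2 - a‖ := by simpa [dist_eq_norm] using (hA ht.2).2
      exact ⟨(hA ht.2).1, by linarith⟩
  let lam : ℝ → ℂ → ℝ := fun s t => 1 - s * (1 - min 1 (3 * η / 4 / ‖t - a‖))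
  let H : ℝ × P × ℂ → P × ℂ := fun x =>
    (p + max (1 - 2 * x.1) 0 • (x.2.1 - p), a + lam (max (2 * x.1 - 1) 0) x.2.2 • (x.2.2 - a))
  have hs1 : ∀ s ∈ Icc (0 : ℝ) 1, max (1 - 2 * s) 0 ∈ Icc (0 : ℝ) 1 := fun s hs =>
    ⟨le_max_right _ _, max_le (by linarith [hs.1]) zero_le_one⟩
  have hs2 : ∀ s ∈ Icc (0 : ℝ) 1, max (2 * s - 1) 0 ∈ Icc (0 : ℝ) 1 := fun s hs =>
    ⟨le_max_right _ _, max_le (by linarith [hs.2]) zero_le_one⟩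
  have hr : ∀ s ∈ Icc (0 : ℝ) 1, ∀ t ∈ M, a + lam s t.2 • (t.2 - a) ∈ D \ closedBall a (η / 2) ∧
      ‖lam s t.2 • (t.2 - a)‖ = lam s t.2 * ‖t.2 - a‖ := by
    intro s hs t ht
    obtain ⟨h1, h2, h3, -⟩ := radial hη (hn t ht).2 hs
    have h4 : ‖lam s t.2 • (t.2 - a)‖ = lam s t.2 * ‖t.2 - a‖ := by
      rw [norm_smul, Real.norm_of_nonneg h1]
    refine ⟨⟨cD.add_smul_sub_mem ha (hn t ht).1 ⟨h1, h2⟩, ?_⟩, h4⟩
    rw [mem_closedBall, dist_eq_norm, add_sub_cancel_left, h4, not_le]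
    exact h3
  have hsub : B₁ ×ˢ (ball a η \ closedBall a (η / 2)) ⊆ M :=
    fun t ht => Or.inl ⟨ht.1, hb ht.2.1, ht.2.2⟩
  refine (transport (H := H) hg ((o₁.prod (oD.sdiff isClosed_closedBall)).union (o₀.prod oA))
    ?_ ?_ ?_ ?_ ?_ hQ).imp fun Q' h => ⟨h.1, fun q hq hq' => h.2 q hq (hsub hq') hq'⟩
  · have h1 : ∀ x ∈ Icc (0 : ℝ) 1 ×ˢ M, ‖x.2.2 - a‖ ≠ 0 := fun x hx =>
      ne_of_gt (by linarith [(hn _ hx.2).2])
    have h2 : ContinuousOn (fun x : ℝ × P × ℂ => min 1 (3 * η / 4 / ‖x.2.2 - a‖))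
        (Icc (0 : ℝ) 1 ×ˢ M) := continuousOn_const.inf (continuousOn_const.div (by fun_prop) h1)
    simp only [H, lam]
    fun_prop
  · intro t _
    simp [H, lam]
  · intro s hs t ht
    rcases le_total s (1 / 2) with h | h
    · have h3 : max (2 * s - 1) 0 = 0 := max_eq_right (by linarith)
      have h4 : (H (s, t)).2 = t.2 := by simp [H, lam, h3]
      rcases ht with ht | ht
      · exact Or.inl ⟨c₁.add_smul_sub_mem p₁ ht.1 (hs1 s hs), h4 ▸ ht.2⟩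
      · exact Or.inr ⟨c₀.add_smul_sub_mem p₀ ht.1 (hs1 s hs), h4 ▸ ht.2⟩
    · have h3 : max (1 - 2 * s) 0 = 0 := max_eq_right (by linarith)
      have h4 : (H (s, t)).1 = p := by simp [H, h3]
      exact Or.inl ⟨h4 ▸ p₁, (hr _ (hs2 s hs) t ht).1⟩
  · intro t ht
    have h3 : max (2 * (1 : ℝ) - 1) 0 = 1 := by norm_num
    have h4 : (H (1, t)).1 = p := by norm_num [H]
    have h5 := hr _ (hs2 1 ⟨zero_le_one, le_rfl⟩) t ht
    refine ⟨h4 ▸ p₁, ?_, h5.1.2⟩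
    rw [mem_ball, dist_eq_norm]
    simp only [H, add_sub_cancel_left]
    rw [h5.2, h3]
    simpa [lam] using (radial hη (hn t ht).2 ⟨zero_le_one, le_rfl⟩).2.2.2
  · intro s hs t ht ht'
    have h5 := hr _ (hs2 s hs) t ht
    refine ⟨c₁.add_smul_sub_mem p₁ ht'.1 (hs1 s hs), ?_, h5.1.2⟩
    obtain ⟨h6, h7, -⟩ := radial hη (hn t ht).2 (hs2 s hs)
    exact (convex_ball a η).add_smul_sub_mem (mem_ball_self hη) ht'.2.1 ⟨h6, h7⟩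

omit [FiniteDimensional ℂ A] [FiniteDimensional ℂ P] in
/-- Hartogs extension along `L`. -/
theorem hartogs_ext {L : A →L[ℂ] P × ℂ} {ξ : A →L[ℂ] ℂ} {Ω : Set (P × ℂ)} (hΩ : IsOpen Ω)
    {g : (P × ℂ) × ℂ → ℂ} (hg : DifferentiableOn ℂ g (Ω ×ˢ univ)) {B₀ B₁ : Set P} (o₀ : IsOpen B₀)
    {c : ℂ} {ρ : ℝ} (hρ : 0 < ρ) (h₀ : B₀ ×ˢ sphere c ρ ⊆ Ω) (h₁ : B₁ ×ˢ closedBall c ρ ⊆ Ω) :
    ∃ G : A → ℂ, DifferentiableOn ℂ G (L ⁻¹' (B₀ ×ˢ ball c ρ)) ∧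
      ∀ x, L x ∈ B₁ ×ˢ ball c ρ → (G x = 0 ↔ g (L x, ξ x) = 0) := by
  let Φ : A × ℂ → ℂ := fun y => (y.2 - (L y.1).2)⁻¹ • g (((L y.1).1, y.2), ξ y.1)
  have h2 : ∀ y : A × ℂ, ((L y.1).1, y.2) ∈ Ω →
      DifferentiableAt ℂ (fun y : A × ℂ => g (((L y.1).1, y.2), ξ y.1)) y := fun y hy =>
    (hg.differentiableAt ((hΩ.prod isOpen_univ).mem_nhds ⟨hy, mem_univ _⟩)).comp y
      (f := fun y : A × ℂ => (((L y.1).1, y.2), ξ y.1)) (by fun_prop)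
  refine ⟨fun x => ∮ z in C(c, ρ), Φ (x, z), hol_circle
    (W := {y | ((L y.1).1, y.2) ∈ Ω} ∩ {y | y.2 - (L y.1).2 ≠ 0})
    ((hΩ.preimage (by fun_prop)).inter (isOpen_ne_fun (by fun_prop) continuous_const))
    (fun y hy => ?_) ((o₀.prod isOpen_ball).preimage L.continuous) hρ.le fun x hx z hz => ?_,
    fun x hx => ?_⟩
  · exact (((by fun_prop : DifferentiableAt ℂ (fun y : A × ℂ => y.2 - (L y.1).2) y).inv hy.2).smul
      (h2 y hy.1)).differentiableWithinAt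
  · refine ⟨h₀ ⟨hx.1, hz⟩, fun h => ?_⟩
    have h3 : z = (L x).2 := sub_eq_zero.1 h
    exact (mem_ball.1 hx.2).ne (h3 ▸ mem_sphere.1 hz)
  · have h3 : DifferentiableOn ℂ (fun z => g (((L x).1, z), ξ x)) (closedBall c ρ) := fun z hz =>
      ((h2 (x, z) (h₁ ⟨hx.1, hz⟩)).comp z (f := fun z : ℂ => (x, z))
        (by fun_prop)).differentiableWithinAt
    simp only [Φ]
    rw [h3.circleIntegral_sub_inv_smul hx.2]
    simp [Real.pi_ne_zero]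

theorem cell {Z : Set A} {L : A →L[ℂ] P × ℂ} {p₀ : P} {c : ℂ} {ε R R' : ℝ} {σ : Set (P × ℂ)}
    (h : BC Z L (ball p₀ ε ×ˢ ball c R) σ) (hR : R' < R)
    (hσ : ∀ t ∈ ball p₀ ε ×ˢ ball c R, t ∈ σ → t.2 ∈ closedBall c R') {q₁ q₂ : A} (hq₁ : q₁ ∈ Z)
    (hq₂ : q₂ ∈ Z) (h₁ : ∀ x ∈ Z, L x = L q₁ → x = q₁) (h₂ : ∀ x ∈ Z, L x = L q₂ → x = q₂)
    (hs : ∀ a ∈ ball c R, ((L q₁).1, a) ∈ σ → a = (L q₁).2) (hi : Irr Z q₂) : Irr Z q₁ := by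
  have hT₁ := h.fb.sub _ hq₁
  have hT₂ := h.fb.sub _ hq₂
  by_cases hσ₁ : L q₁ ∈ σ
  swap
  · obtain ⟨d, hd⟩ := h.good _ ⟨hT₁, hσ₁⟩
    exact irr_of_good hq₁ hd
  intro Z₁ Z₂ a₁ a₂ hc
  by_contra hne
  rw [not_or] at hne
  set p := (L q₁).1 with hp
  set a := (L q₁).2 with ha
  have haR : dist a c ≤ R' := hσ _ hT₁ hσ₁
  obtain ⟨ρ, hρ1, hρ2⟩ := exists_between (max_lt hR (mem_ball.1 hT₂.2))
  obtain ⟨ρ₁, hρ3, hρ4⟩ := exists_between ((le_max_left _ _).trans_lt hρ1)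
  have hρ0 : 0 < ρ := by linarith [dist_nonneg (x := a) (y := c)]
  have h3 := h.fb.tube hT₁ isOpen_interior
    (N := interior {x | AnAt Z₁ x ∧ AnAt Z₂ x ∧ (x ∈ Z → x ∈ Z₁ ∪ Z₂)}) fun x hx hx' => by
      rw [h₁ x hx hx']
      exact mem_interior_iff_mem_nhds.2 (a₁.eventually.and (a₂.eventually.and hc))
  obtain ⟨η₀, hη₀, hb₀⟩ := Metric.mem_nhds_iff.1 (h3.and (h.fb.op.mem_nhds hT₁))
  set η := min η₀ (ρ₁ - R') with hη
  have hη0 : 0 < η := lt_min hη₀ (by linarith)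
  have hη1 : η ≤ ρ₁ - R' := min_le_right _ _
  have hb : ball (L q₁) η ⊆ _ := (ball_subset_ball (min_le_left _ _)).trans hb₀
  have hbρ : ball a η ⊆ ball c ρ₁ := ball_subset_ball' (by linarith)
  have hK : IsCompact (closedBall c R' \ ball a (η / 2)) := (isCompact_closedBall _ _).diff isOpen_ball
  have h4 : ∀ᶠ p' in 𝓝 p, ∀ z ∈ closedBall c R' \ ball a (η / 2), (p', z) ∉ σ := by
    refine hK.eventually_forall_of_forall_eventually fun z hz => ?_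
    have hz' : z ∈ ball c R := closedBall_subset_ball hR hz.1
    refine mem_of_superset (h.op.mem_nhds ⟨⟨hT₁.1, hz'⟩, fun h5 => hz.2 ?_⟩) fun t ht => ht.2
    rw [hs z hz' h5]; exact mem_ball_self (by linarith)
  obtain ⟨ε₁, hε₁, hb₁⟩ := Metric.mem_nhds_iff.1 (h4.and (Eventually.and
    (p := (· ∈ ball p η)) (q := (· ∈ ball p₀ ε)) (ball_mem_nhds p hη0) (isOpen_ball.mem_nhds hT₁.1)))
  set An : Set ℂ := ball c R \ closedBall c ρ₁ with hAn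
  have oA : IsOpen An := isOpen_ball.sdiff isClosed_closedBall
  set M := ball p ε₁ ×ˢ (ball c R \ closedBall a (η / 2)) ∪ ball p₀ ε ×ˢ An with hM
  set W := ball p ε₁ ×ˢ ball a η with hW
  have oW : IsOpen W := isOpen_ball.prod isOpen_ball
  have hWb : W ⊆ ball (L q₁) η := fun t ht => by
    rw [← ball_prod_same]; exact ⟨(hb₁ ht.1).2.1, ht.2⟩
  have hMT : M ⊆ (ball p₀ ε ×ˢ ball c R) \ σ := by
    rintro t (ht | ht)
    · have h5 : t ∈ ball p₀ ε ×ˢ ball c R := ⟨(hb₁ ht.1).2.2, ht.2.1⟩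
      exact ⟨h5, fun h6 => (hb₁ ht.1).1 t.2 ⟨hσ t h5 h6, fun h7 => ht.2.2 (ball_subset_closedBall h7)⟩ h6⟩
    · exact ⟨⟨ht.1, ht.2.1⟩, fun h6 => ht.2.2 (closedBall_subset_closedBall hρ3.le
        (hσ t ⟨ht.1, ht.2.1⟩ h6))⟩
  have cT := ((convex_ball p₀ ε).prod (convex_ball c R)).isPreconnected
  obtain ⟨d, hd⟩ := good_const (h.neg.preconnected h.fb.op cT h.op) h.good
  have oWσ : IsOpen (W \ σ) := (h.restrict oW fun t ht => (hb (hWb ht)).2).op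
  have hQ : Clo Z (Inn Z Z₁) L (W \ σ) := clo_inn oWσ
    (fun t ht => h.good t ⟨(hb (hWb ht.1)).2, ht.2⟩)
    fun x hx hx' => (interior_subset ((hb (hWb hx'.1)).1 x hx rfl)).1
  have hbR : ball a η ⊆ ball c R := hbρ.trans (ball_subset_ball (by linarith))
  obtain ⟨Q, hQ1, hQ2⟩ := spread hη0 isOpen_ball isOpen_ball isOpen_ball oA (convex_ball _ _)
    (convex_ball _ _) (convex_ball _ _) hT₁.1 (mem_ball_self hε₁) hT₁.2 hbR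
    (fun z hz => ⟨hz.1, fun h5 => hz.2 (ball_subset_closedBall (hbρ h5))⟩)
    (fun t ht => hd t (hMT ht)) (hQ.mono subset_rfl fun t ht =>
      ⟨⟨ht.1, ht.2.1⟩, (hMT (Or.inl ⟨ht.1, hbR ht.2.1, ht.2.2⟩)).2⟩)
  set Q' : Set A := {x | (L x ∈ M ∧ x ∈ Q) ∨ (L x ∉ M ∧ x ∈ Inn Z Z₁)} with hQ'
  have hQW : ∀ x ∈ Z, L x ∈ W → (x ∈ Q' ↔ x ∈ Inn Z Z₁) := by
    intro x hx hx'
    by_cases h5 : L x ∈ M
    · have h6 : L x ∈ ball p ε₁ ×ˢ (ball a η \ closedBall a (η / 2)) := by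
        rcases h5 with h5 | h5
        · exact ⟨hx'.1, hx'.2, h5.2.2⟩
        · exact (h5.2.2 (ball_subset_closedBall (hbρ hx'.2))).elim
      simp [hQ', h5, hQ2 x hx h6]
    · simp [hQ', h5]
  set Ω := ball p ε₁ ×ˢ ball c R ∪ ball p₀ ε ×ˢ An with hΩ
  have oΩ : IsOpen Ω := (isOpen_ball.prod isOpen_ball).union (isOpen_ball.prod oA)
  have hΩT : Ω ⊆ ball p₀ ε ×ˢ ball c R := by
    rintro t (ht | ht)
    · exact ⟨(hb₁ ht.1).2.2, ht.2⟩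
    · exact ⟨ht.1, ht.2.1⟩
  have cΩ : IsPreconnected Ω := by
    have c₁ := ((convex_ball p ε₁).prod (convex_ball c R)).isPreconnected
    refine isPreconnected_of_forall (p, a) ?_
    rintro t (ht | ht)
    · exact ⟨_, subset_union_left, ⟨mem_ball_self hε₁, hT₁.2⟩, ht, c₁⟩
    · refine ⟨_, union_subset_union_right _ (prod_mono subset_rfl (singleton_subset_iff.2 ht.2)),
        Or.inl ⟨mem_ball_self hε₁, hT₁.2⟩, Or.inr ⟨ht.1, rfl⟩, c₁.union (p, t.2)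
          ⟨mem_ball_self hε₁, ht.2.1⟩ ⟨hT₁.1, rfl⟩
          ((convex_ball p₀ ε).prod (convex_singleton _)).isPreconnected⟩
  have oM : IsOpen M :=
    (isOpen_ball.prod (isOpen_ball.sdiff isClosed_closedBall)).union (isOpen_ball.prod oA)
  have hC : Clo Z Q' L (Ω \ σ) := by
    intro q hq hq'
    by_cases h5 : L q ∈ M
    · filter_upwards [hQ1 q hq h5, L.continuous.continuousAt.preimage_mem_nhds (oM.mem_nhds h5)]
        with x hx hx' hxZ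
      have h6 : L x ∈ M := hx'
      simp [hQ', h5, h6, hx hxZ]
    · have h6 : L q ∈ W := by
        rcases hq'.1 with h6 | h6
        · refine ⟨h6.1, closedBall_subset_ball (half_lt_self hη0) (by_contra fun h7 => ?_)⟩
          exact h5 (Or.inl ⟨h6.1, h6.2, h7⟩)
        · exact (h5 (Or.inr h6)).elim
      filter_upwards [hQ q hq ⟨h6, hq'.2⟩,
        L.continuous.continuousAt.preimage_mem_nhds (oW.mem_nhds h6)] with x hx hx' hxZ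
      rw [hQW x hxZ hx', hQW q hq h6, hx hxZ]
  obtain ⟨k, Y, hY, hY'⟩ := (h.restrict oΩ hΩT).hm cΩ (hC.mono inter_subset_left subset_rfl)
  have hWn : L ⁻¹' W ∈ 𝓝 q₁ := L.continuous.continuousAt.preimage_mem_nhds
    (oW.mem_nhds ⟨mem_ball_self hε₁, mem_ball_self hη0⟩)
  have hWΩ : W ⊆ Ω := fun t ht => Or.inl ⟨ht.1, hbR ht.2⟩
  obtain ⟨x₂, hx₂, hx₂W, hx₂σ, hx₂Q⟩ : ∃ x ∈ Z, L x ∈ W ∧ L x ∉ σ ∧ x ∉ Inn Z Z₁ := by
    by_contra! h5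
    exact hne.1 (h.inn hWn a₁ fun x hx hx' hx'' => (h5 x hx hx' hx'').self_of_nhds hx)
  obtain ⟨x₁, hx₁, hx₁W, hx₁σ, hx₁Q⟩ : ∃ x ∈ Z, L x ∈ W ∧ L x ∉ σ ∧ x ∈ Inn Z Z₁ := by
    by_contra! h5
    refine hne.2 (h.inn hWn a₂ fun x hx hx' hx'' => ?_)
    have h6 := (hb (hWb hx')).1 x hx rfl
    have h7 := irr_of_good hx (hd _ ⟨(hb (hWb hx')).2, hx''⟩) Z₁ Z₂ (interior_subset h6).1
      (interior_subset h6).2.1 (mem_of_superset (mem_interior_iff_mem_nhds.1 h6) fun y hy => hy.2.2)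
    exact (h7.resolve_left (h5 x hx hx' hx'')).self_of_nhds hx
  obtain ⟨Ξ, hΞ⟩ := sep_family A k
  obtain ⟨ξ, -, hξ⟩ : ∃ ξ ∈ Ξ, ∏ j, (ξ x₂ - ξ (Y (L x₂) j)) ≠ 0 := by
    by_contra! h5
    exact hx₂Q ((hQW _ hx₂ hx₂W).1 ((hY' _ ⟨hWΩ hx₂W, hx₂σ⟩ x₂).2 (hΞ _ _ h5)).2.1)
  obtain ⟨G, hG, hG'⟩ := hartogs_ext (L := L) (ξ := ξ) oΩ (hY.joint ξ) (B₀ := ball p₀ ε)
    (B₁ := ball p ε₁) isOpen_ball (c := c) hρ0
    (fun t ht => Or.inr ⟨ht.1, by rw [mem_ball, mem_sphere.1 ht.2]; exact hρ2,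
      by rw [mem_closedBall, mem_sphere.1 ht.2, not_le]; exact hρ4⟩)
    fun t ht => Or.inl ⟨ht.1, closedBall_subset_ball hρ2 ht.2⟩
  set T₁ := ball p₀ ε ×ˢ ball c ρ with hT₁'
  have oT : IsOpen T₁ := isOpen_ball.prod isOpen_ball
  have hWT : ∀ t ∈ W, t ∈ ball p ε₁ ×ˢ ball c ρ ∧ t ∈ T₁ := fun t ht =>
    have h5 := ball_subset_ball hρ4.le (hbρ ht.2)
    ⟨⟨ht.1, h5⟩, (hb₁ ht.1).2.2, h5⟩
  have h' := h.restrict oT (prod_mono subset_rfl (ball_subset_ball hρ2.le))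
  have hq₂T : L q₂ ∈ T₁ := ⟨hT₂.1, (le_max_right _ _).trans_lt hρ1⟩
  refine h'.not_irr ((convex_ball _ _).prod (convex_ball _ _)).isPreconnected
    (clo_inn (Z₁ := {x | G x = 0}) h'.op h'.good fun x hx _ =>
      anAt_eq (oT.preimage L.continuous) hx.2 hG (differentiableOn_const 0))
    ⟨hx₁, (hWT _ hx₁W).2⟩ ⟨hx₂, (hWT _ hx₂W).2⟩ hx₁σ hx₂σ ?_ ?_ ⟨hq₂, hq₂T⟩
    (fun x hx => h₂ x hx.1)
    ((irr_inter (L.continuous.continuousAt.preimage_mem_nhds (oT.mem_nhds hq₂T))).2 hi)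
  · filter_upwards [hx₁Q.eventually_nhds,
      L.continuous.continuousAt.preimage_mem_nhds (oWσ.mem_nhds ⟨hx₁W, hx₁σ⟩)] with x hx hx' hxZ
    obtain ⟨j, hj⟩ := (hY' _ ⟨hWΩ hx'.1, hx'.2⟩ x).1
      ⟨⟨hxZ.1, hWΩ hx'.1⟩, (hQW _ hxZ.1 hx'.1).2 hx, rfl⟩
    exact (hG' x (hWT _ hx'.1).1).2 (Finset.prod_eq_zero (Finset.mem_univ j) (by simp [← hj]))
  · exact fun h5 => hξ ((hG' _ (hWT _ hx₂W).1).1 (h5.self_of_nhds ⟨hx₂, (hWT _ hx₂W).2⟩))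

end Pool.Agent.Lib.MP_823829_an.LI
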