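import Pool.Agent.Lib.MP_823829_an.An

/-! Transport of open and closed parts of an unbranched cover along a deformation of the base. -/

namespace Pool.Agent.Lib.MP_823829_an.LI

open Set Metric Filter MeasureTheory
open scoped Topology ENNReal NNReal unitInterval

variable {A T : Type} [NormedAddCommGroup A] [NormedSpace ℂ A] [FiniteDimensional ℂ A]
  [NormedAddCommGroup T] [NormedSpace ℂ T] [FiniteDimensional ℂ T]

/-- `P` is open and closed in the part of `C` over `N`. -/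
def Clo (C P : Set A) (L : A →L[ℂ] T) (N : Set T) : Prop :=
  ∀ q ∈ C, L q ∈ N → ∀ᶠ x in 𝓝 q, x ∈ C → (x ∈ P ↔ q ∈ P)

theorem evenly {C : Set A} {L : A →L[ℂ] T} {d : ℕ} {t : T} (hg : Good C L d t) :
    IsEvenlyCovered (fun x : C => L x) t (Fin d) := by
  obtain ⟨U, hU, ht, h, hs⟩ := hg
  have hc : Continuous fun x : C => L x := L.continuous.comp continuous_subtype_val
  have hj : ∀ x : (fun x : C => L x) ⁻¹' U, ∃ j, (x.1 : A) = h j (L x.1) :=
    fun x => (hs.mem _ x.2).1 x.1.2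
  choose j hj using hj
  refine ⟨inferInstance, U, ht, hU, hU.preimage hc, ⟨⟨fun x => (⟨L x.1, x.2⟩, j x),
    fun y => ⟨⟨h y.2 y.1, hs.mem_self _ y.1.2⟩, ?_⟩, fun x => ?_, fun y => ?_⟩, ?_, ?_⟩,
    fun x => rfl⟩
  · show L (h y.2 y.1) ∈ U
    rw [hs.sec _ _ y.1.2]; exact y.1.2
  · exact Subtype.ext (Subtype.ext (hj x).symm)
  · have h1 := hs.sec y.2 _ y.1.2
    refine Prod.ext (Subtype.ext h1) (hs.inj _ y.1.2 ?_)
    have h2 := hj ⟨⟨h y.2 y.1, hs.mem_self _ y.1.2⟩, by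
      show L (h y.2 y.1) ∈ U
      rw [h1]; exact y.1.2⟩
    simp only [h1] at h2
    exact h2.symm
  · refine ((hc.comp continuous_subtype_val).subtype_mk _).prodMk ?_
    refine continuous_iff_continuousAt.2 fun x => ?_
    have h1 := hs.isOpen hU (j x) x.2
    rw [← hj x] at h1
    have h2 : Tendsto (fun y : (fun x : C => L x) ⁻¹' U => (y.1 : A)) (𝓝 x) (𝓝 x.1) :=
      (continuous_subtype_val.comp continuous_subtype_val).continuousAt
    refine (continuousAt_const (y := j x)).congr ?_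
    filter_upwards [h2.eventually h1] with y hy
    exact hs.inj _ y.2 ((hy y.1.2).symm.trans (hj y))
  · refine Continuous.subtype_mk (Continuous.subtype_mk ?_ _) _
    refine continuous_prod_of_discrete_right.2 fun i => ?_
    exact (hs.hol i).continuousOn.domRestrict

theorem transport {C P₀ : Set A} {L : A →L[ℂ] T} {M M₀ : Set T} {d : ℕ}
    (hg : ∀ t ∈ M, Good C L d t) (hM : IsOpen M) {H : ℝ × T → T}
    (hc : ContinuousOn H (Icc 0 1 ×ˢ M)) (h0 : ∀ t ∈ M, H (0, t) = t)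
    (hm : ∀ s ∈ Icc (0 : ℝ) 1, ∀ t ∈ M, H (s, t) ∈ M) (h1 : ∀ t ∈ M, H (1, t) ∈ M₀)
    (h2 : ∀ s ∈ Icc (0 : ℝ) 1, ∀ t ∈ M, t ∈ M₀ → H (s, t) ∈ M₀) (hP : Clo C P₀ L M₀) :
    ∃ P : Set A, Clo C P L M ∧ ∀ q ∈ C, L q ∈ M → L q ∈ M₀ → (q ∈ P ↔ q ∈ P₀) := by
  set f : C → T := fun x => L x with hf
  have cov : IsCoveringMap (M.restrictPreimage f) :=
    IsCoveringMapOn.isCoveringMap_restrictPreimage _ fun t ht =>
      (evenly (hg t ht)).to_isEvenlyCovered_preimage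
  have hfc : Continuous f := L.continuous.comp continuous_subtype_val
  let K : C(I × (f ⁻¹' M), M) := ⟨fun x => ⟨H (x.1, f x.2), hm _ x.1.2 _ x.2.2⟩, by
    refine Continuous.subtype_mk (hc.comp_continuous ?_ fun x => ⟨x.1.2, x.2.2⟩) _
    fun_prop⟩
  have hK0 : ∀ x, K (0, x) = M.restrictPreimage f (ContinuousMap.id _ x) :=
    fun x => Subtype.ext (h0 _ x.2)
  set G := cov.liftHomotopy K (ContinuousMap.id _) hK0 with hG
  have hG1 : ∀ x, L ((G x).1 : A) = H (x.1, f x.2) := fun x =>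
    congrArg Subtype.val (congr_fun (cov.liftHomotopy_lifts K _ hK0) x)
  have hGc : Continuous fun x => ((G x).1 : A) :=
    continuous_subtype_val.comp (continuous_subtype_val.comp G.continuous)
  refine ⟨{q | ∃ (h : q ∈ C) (h' : L q ∈ M), ((G (1, ⟨⟨q, h⟩, h'⟩)).1 : A) ∈ P₀}, ?_, ?_⟩
  · intro q hq hq'
    set x : f ⁻¹' M := ⟨⟨q, hq⟩, hq'⟩
    have h3 := hP _ (G (1, x)).1.2 (by rw [hG1]; exact h1 _ hq')
    have h4 : Tendsto (fun y : f ⁻¹' M => ((G (1, y)).1 : A)) (𝓝 x) (𝓝 (G (1, x)).1) :=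
      (hGc.comp (continuous_const.prodMk continuous_id)).continuousAt
    have h5 := h4.eventually h3
    have h6 : Topology.IsInducing fun y : f ⁻¹' M => (y.1 : A) :=
      Topology.IsInducing.subtypeVal.comp Topology.IsInducing.subtypeVal
    rw [h6.nhds_eq_comap, eventually_comap] at h5
    filter_upwards [h5, L.continuous.continuousAt.preimage_mem_nhds (hM.mem_nhds hq')] with y hy
      hy' hyC
    have h7 := hy ⟨⟨y, hyC⟩, hy'⟩ rfl (G _).1.2
    exact ⟨fun ⟨_, _, h⟩ => ⟨hq, hq', h7.1 h⟩, fun ⟨_, _, h⟩ => ⟨hyC, hy', h7.2 h⟩⟩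
  · intro q hq hq' hq₀
    set x : f ⁻¹' M := ⟨⟨q, hq⟩, hq'⟩
    have h3 : IsLocallyConstant fun s : I => ((G (s, x)).1 : A) ∈ P₀ := by
      refine (IsLocallyConstant.iff_eventually_eq _).2 fun s => ?_
      have h4 : Tendsto (fun s : I => ((G (s, x)).1 : A)) (𝓝 s) (𝓝 (G (s, x)).1) :=
        (hGc.comp (continuous_id.prodMk continuous_const)).continuousAt
      filter_upwards [h4.eventually (hP _ (G (s, x)).1.2
        (by rw [hG1]; exact h2 _ s.2 _ hq' hq₀))] with s' hs'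
      exact propext (hs' (G _).1.2)
    have h5 := h3.apply_eq_of_preconnectedSpace 1 0
    rw [hG, cov.liftHomotopy_zero K _ hK0 x] at h5
    exact ⟨fun ⟨_, _, h⟩ => h5 ▸ h, fun h => ⟨hq, hq', h5.symm ▸ h⟩⟩

end Pool.Agent.Lib.MP_823829_an.LI
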