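import Pool.Agent.Lib.MP_823829_an.LI.Uni
import Pool.Agent.Lib.MP_823829_an.Eil

/-! Local irreducibility spreads over the base outside a polar set. -/

namespace Pool.Agent.Lib.MP_823829_an.LI

open Set Metric Filter MeasureTheory ContinuousLinearMap
open scoped Topology ENNReal NNReal

variable {A T T' : Type} [NormedAddCommGroup A] [NormedSpace ℂ A] [FiniteDimensional ℂ A]
  [NormedAddCommGroup T] [NormedSpace ℂ T] [FiniteDimensional ℂ T]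
  [NormedAddCommGroup T'] [NormedSpace ℂ T'] [FiniteDimensional ℂ T']

/-- The closure of the set of points at which `Z` is reducible. -/
def Bad (Z : Set A) : Set A := closure {x ∈ Z | ¬ Irr Z x}

omit [FiniteDimensional ℂ A] in
theorem bad_inter {Z N : Set A} (hN : IsOpen N) {q : A} (hq : q ∈ N) (h : q ∈ Bad Z) :
    q ∈ Bad (Z ∩ N) := by
  refine closure_mono ?_ (hN.closure_inter ⟨h, hq⟩)
  exact fun x hx => ⟨⟨hx.1.1, hx.2⟩, fun h1 => hx.1.2 ((irr_inter (hN.mem_nhds hx.2)).1 h1)⟩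

omit [FiniteDimensional ℂ A] [FiniteDimensional ℂ T] in
theorem iso_zero {W : Set A} {M : A →L[ℂ] T × ℂ} {D : T × ℂ → ℂ} {q : A} (hi : Iso W q M)
    (hD : ∀ᶠ w in 𝓝[≠] (M q).2, D ((M q).1, w) ≠ 0) :
    Iso (W ∩ M ⁻¹' {p | D p = 0}) q ((fst ℂ T ℂ).comp M) := by
  have h1 : ContinuousAt (fun x => (M x).2) q := by fun_prop
  filter_upwards [hi, h1.eventually (eventually_nhdsWithin_iff.1 hD)] with x hx hx' hxW he
  have h2 : (M x).1 = (M q).1 := he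
  refine hx hxW.1 (Prod.ext h2 (by_contra fun h3 => hx' h3 ?_))
  rw [← h2]; exact hxW.2

theorem lemC {Z : Set A} {L : A →L[ℂ] (C2 × ℂ) × ℂ} {T₀ σ : Set ((C2 × ℂ) × ℂ)} (h : BC Z L T₀ σ)
    (ha : ∀ t ∈ T₀, AnAt σ t) {F : Set C2} (hF : IsOpen F)
    (hI : ∀ q ∈ Z, (L q).1.1 ∈ F → Irr Z q) {q₀ : A} (hq : q₀ ∈ Z)
    (hi : Iso σ (L q₀) (fst ℂ (C2 × ℂ) ℂ)) (hc : (L q₀).1.1 ∈ closure F) :
    ∃ N ∈ 𝓝 q₀, Polar ((fun q => (L q).1.1) ''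
      ({q ∈ Z | (L q).1.1 ∈ closure F ∧ q ∈ Bad Z} ∩ N)) := by
  set M : A →L[ℂ] C2 × ℂ := (fst ℂ _ _).comp L with hM
  set Y := Z ∩ L ⁻¹' σ with hY
  have dL : ∀ q, ∀ᶠ y in 𝓝 q, DifferentiableAt ℂ L y := fun q => .of_forall fun _ =>
    L.differentiableAt
  have aY : ∀ q ∈ Z, AnAt Y q := fun q hq =>
    (h.fb.an q (h.fb.sub q hq)).inter ((ha _ (h.fb.sub q hq)).preimage (dL q))
  have iY : Iso Y q₀ M := by
    filter_upwards [h.fb.iso hq, L.continuous.continuousAt.eventually hi] with x hx hx' hxY he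
    exact hx hxY.1 (hx' hxY.2 he)
  obtain ⟨B₁, η₁, D₁, o₁, m₁, -, hη₁, f₁, d₁, n₁, g₁⟩ := loc (ha _ (h.fb.sub _ hq)) hi univ_mem
  obtain ⟨B₂, η₂, D₂, o₂, m₂, s₂, hη₂, f₂, d₂, n₂, g₂⟩ := loc (aY _ hq) iY
    (L.continuous.continuousAt.preimage_mem_nhds (o₁.mem_nhds m₁))
  have hη := lt_min hη₁ hη₂
  set U := ball (M q₀) (min η₁ η₂) with hU
  have u₁ : U ⊆ ball (M q₀) η₁ := ball_subset_ball (min_le_left _ _)
  have u₂ : U ⊆ ball (M q₀) η₂ := ball_subset_ball (min_le_right _ _)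
  set D : C2 × ℂ → ℂ := fun p => D₁ p * D₂ p with hD
  have dD : DifferentiableOn ℂ D U := (d₁.mono u₁).mul (d₂.mono u₂)
  set S := {p | D p = 0} with hS
  have nD : Neg S U := (((neg_zero isOpen_ball (convex_ball _ _).isPreconnected d₁ n₁).subset u₁
    subset_rfl).union ((neg_zero isOpen_ball (convex_ball _ _).isPreconnected d₂ n₂).subset u₂
      subset_rfl)).subset subset_rfl fun p hp => mul_eq_zero.1 hp
  have oB := isOpen_ne isOpen_ball dD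
  have hC : Clo (Y ∩ B₂) {q | ¬ Irr Z q} M (U \ S) := by
    intro q hq hq'
    obtain ⟨k₁, h₁⟩ := g₁ _ (u₁ hq'.1) (left_ne_zero_of_mul hq'.2)
    obtain ⟨k₂, h₂⟩ := g₂ _ (u₂ hq'.1) (right_ne_zero_of_mul hq'.2)
    obtain ⟨N₁, hN₁, i₁⟩ := (sh_of_good (q := L q) hq.1.2 (o₁.mem_nhds (s₂ hq.2)) h₁).1
    obtain ⟨N₂, hN₂, i₂⟩ := (sh_of_good hq.1 (o₂.mem_nhds hq.2) h₂).1
    obtain ⟨N, hN, h3⟩ := uni h (S := univ) hq.1.1 hq.1.2 trivial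
      ⟨N₁, hN₁, i₁.mono (inter_subset_inter_left _ inter_subset_left)⟩ ⟨N₂, hN₂, fun x hx y hy he =>
        i₂ ⟨⟨hx.1.1, hx.1.2.1⟩, hx.2⟩ ⟨⟨hy.1.1, hy.1.2.1⟩, hy.2⟩ (congrArg Prod.fst he)⟩
    filter_upwards [hN] with x hx hxY
    have h4 : x ∈ Z ∩ L ⁻¹' (σ ∩ Prod.fst ⁻¹' univ) ∩ N := ⟨⟨hxY.1.1, hxY.1.2, trivial⟩, hx⟩
    have h5 : q ∈ Z ∩ L ⁻¹' (σ ∩ Prod.fst ⁻¹' univ) ∩ N :=
      ⟨⟨hq.1.1, hq.1.2, trivial⟩, mem_of_mem_nhds hN⟩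
    exact not_congr ⟨h3 _ h5 _ h4, h3 _ h4 _ h5⟩
  obtain ⟨t₀, ht₀, ht₀'⟩ := nD.exists_mem (isOpen_ball.inter (hF.preimage continuous_fst))
    inter_subset_left (by
      obtain ⟨z, hz, hz'⟩ := mem_closure_iff_nhds.1 hc _ (ball_mem_nhds _ hη)
      exact ⟨(z, (M q₀).2), by rw [← ball_prod_same]; exact ⟨hz, mem_ball_self hη⟩, hz'⟩)
  have hfar := clo_empty oB (nD.preconnected isOpen_ball (convex_ball _ _).isPreconnected oB)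
    (fun t ht => g₂ t (u₂ ht.1) (right_ne_zero_of_mul ht.2)) hC ⟨ht₀.1, ht₀'⟩
    fun q hq he h1 => h1 (hI q hq.1.1 (by rw [show (L q).1 = t₀ from he]; exact ht₀.2))
  have oN : IsOpen (B₂ ∩ M ⁻¹' U) := o₂.inter (isOpen_ball.preimage M.continuous)
  set S₂ := Z ∩ L ⁻¹' (σ ∩ Prod.fst ⁻¹' S) with hS₂
  have hb : ∀ x ∈ Z, ¬ Irr Z x → x ∈ B₂ ∩ M ⁻¹' U → x ∈ S₂ := by
    intro x hx h1 h2
    have h3 : L x ∈ σ := by_contra fun h3 =>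
      (h.good _ ⟨h.fb.sub x hx, h3⟩).elim fun _ h4 => h1 (irr_of_good hx h4)
    exact ⟨hx, h3, by_contra fun h4 => hfar x ⟨⟨hx, h3⟩, h2.1⟩ ⟨h2.2, h4⟩ h1⟩
  obtain ⟨t₁, ht₁, ht₁'⟩ := nD.exists_mem isOpen_ball subset_rfl ⟨_, mem_ball_self hη⟩
  refine ⟨_, oN.mem_nhds ⟨m₂, mem_ball_self hη⟩, (((polar_flat dD ⟨t₁, ht₁, ht₁'⟩).union
    (polar_sh (σ ∩ Prod.fst ⁻¹' S) ((fst ℂ _ _).comp (fst ℂ _ _)))).union
    (polar_sh S₂ ((fst ℂ _ _).comp M))).mono ?_⟩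
  rintro _ ⟨q, ⟨⟨hqZ, hqF, hqB⟩, hqN⟩, rfl⟩
  have aS : AnAt (σ ∩ Prod.fst ⁻¹' S) (L q) := (ha _ (h.fb.sub q hqZ)).inter
    ((anAt_eq isOpen_ball hqN.2 dD (differentiableOn_const 0)).preimage (Φ := Prod.fst)
      (x := L q) (.of_forall fun _ => differentiableAt_fst))
  have aS₂ : AnAt S₂ q := (h.fb.an q (h.fb.sub q hqZ)).inter (aS.preimage (dL q))
  have hq₂ : q ∈ S₂ := by
    refine aS₂.mem_of_closure (closure_mono ?_ (oN.closure_inter ⟨hqB, hqN⟩))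
    exact fun x hx => hb x hx.1.1 hx.1.2 hx.2
  by_contra h1
  simp only [mem_union, not_or] at h1
  have h2 : ∀ᶠ w in 𝓝[≠] (M q).2, D ((M q).1, w) ≠ 0 := by
    have h3 : (fun w => ((M q).1, w)) ⁻¹' U ∈ 𝓝 (M q).2 :=
      (by fun_prop : ContinuousAt (fun w : ℂ => ((M q).1, w)) _).preimage_mem_nhds
        (isOpen_ball.mem_nhds hqN.2)
    have h4 : AnalyticAt ℂ (fun w => D ((M q).1, w)) (M q).2 :=
      (dD.comp (by fun_prop) (mapsTo_preimage _ _)).analyticAt h3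
    exact h4.eventually_eq_zero_or_eventually_ne_zero.resolve_left
      fun h5 => h1.1.1 ⟨M q, ⟨hqN.2, h5⟩, rfl⟩
  have i₁ : Iso σ (L q) (fst ℂ _ _) := (f₁.iso ⟨hq₂.2.1, s₂ hqN.1⟩).mono
    (mem_of_superset (o₁.mem_nhds (s₂ hqN.1)) fun _ hx hx' => ⟨hx', hx⟩)
  have i₂ : Iso Y q M := (f₂.iso ⟨⟨hqZ, hq₂.2.1⟩, hqN.1⟩).mono
    (mem_of_superset (o₂.mem_nhds hqN.1) fun _ hx hx' => ⟨hx', hx⟩)
  obtain ⟨⟨N₁, hN₁, j₁⟩, -⟩ := not_not.1 fun h3 =>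
    h1.1.2 ⟨L q, ⟨hq₂.2, aS, iso_zero i₁ h2, h3⟩, rfl⟩
  obtain ⟨⟨N₂, hN₂, j₂⟩, h4⟩ := not_not.1 fun h3 => h1.2 ⟨q, ⟨hq₂, aS₂, (iso_zero i₂ h2).mono
    (.of_forall fun x hx => ⟨⟨hx.1, hx.2.1⟩, hx.2.2⟩), h3⟩, rfl⟩
  obtain ⟨N, hN, h5⟩ := uni h (S := S) hqZ hq₂.2.1 hq₂.2.2
    ⟨N₁, hN₁, fun x hx y hy he => j₁ hx hy (congrArg Prod.fst he)⟩
    ⟨N₂, hN₂, fun x hx y hy he => j₂ hx hy (congrArg (fun t => t.1.1) he)⟩
  obtain ⟨q₁, hq₁, hq₁'⟩ := mem_closure_iff_nhds.1 hqB _ (inter_mem hN (oN.mem_nhds hqN))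
  obtain ⟨_, ⟨q₂, hq₂', rfl⟩, h6⟩ := mem_closure_iff_nhds.1 hqF _ (h4 N hN)
  exact hq₁'.2 (h5 q₁ ⟨hb _ hq₁'.1 hq₁'.2 hq₁.2, hq₁.1⟩ q₂ hq₂' (hI _ hq₂'.1.1 h6))

omit [FiniteDimensional ℂ A] [FiniteDimensional ℂ T] [FiniteDimensional ℂ T'] in
theorem BC.map {Z : Set A} {L : A →L[ℂ] T} {T₀ σ : Set T} (h : BC Z L T₀ σ) (e : T ≃L[ℂ] T') :
    BC Z ((e : T →L[ℂ] T').comp L) (e.symm ⁻¹' T₀) (e.symm ⁻¹' σ) := by
  refine ⟨⟨h.fb.op.preimage e.symm.continuous, fun x hx => by simpa using h.fb.sub x hx, h.fb.bdd,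
    fun x hx => h.fb.an x (by simpa using hx)⟩, fun t ht => ?_, h.op.preimage e.symm.continuous,
    fun t ht => ?_, ?_⟩
  · obtain ⟨U, hU, h1, δ, hδ, h2, h3⟩ := h.neg _ ht
    refine ⟨e.symm ⁻¹' U, hU.preimage e.symm.continuous, h1, δ ∘ e.symm,
      hδ.comp e.symm.differentiableOn (mapsTo_preimage _ _), fun y hy => h2 _ hy, fun y hy => ?_⟩
    have h4 := h3 _ hy
    rwa [← e.symm.map_nhds_eq, frequently_map] at h4
  · obtain ⟨d, U, hU, h1, s, hs⟩ := h.good (e.symm t) ht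
    refine ⟨d, e.symm ⁻¹' U, hU.preimage e.symm.continuous, h1, fun j => s j ∘ e.symm,
      fun j => (hs.hol j).comp e.symm.differentiableOn (mapsTo_preimage _ _),
      fun j u hu => by simp [hs.sec j _ hu], fun u hu => hs.inj _ hu, fun x hx => ?_⟩
    simpa using hs.mem x (by simpa using hx)
  · convert h.dense using 3
    ext x; simp

theorem exists_coord {v : C2} (hv : v ≠ 0) : ∃ e : (C2 × C2) ≃L[ℂ] (C2 × ℂ) × ℂ,
    (∀ t, (e t).1.1 = t.1) ∧ ∀ τ : ℂ, e.symm (0, τ) = (0, τ • v) := by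
  obtain ⟨u, hu⟩ := exists_linearIndependent_cons_of_lt_finrank (R := ℂ) (v := ![v])
    (by simpa [linearIndependent_unique_iff] using hv) (by simp)
  let b := basisOfLinearIndependentOfCardEqFinrank hu (by simp)
  let e₀ : C2 ≃L[ℂ] ℂ × ℂ :=
    (b.equivFun.trans (LinearEquiv.finTwoArrow ℂ ℂ)).toContinuousLinearEquiv
  refine ⟨((ContinuousLinearEquiv.refl ℂ C2).prodCongr e₀).trans
    (ContinuousLinearEquiv.prodAssoc ℂ _ _ _).symm, fun t => rfl, fun τ => ?_⟩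
  simp [e₀, b]

theorem lemB {Z : Set A} {L : A →L[ℂ] C2 × C2} {t₀ : C2 × C2} {η : ℝ} {δ : C2 × C2 → ℂ}
    (h : BC Z L (ball t₀ η) {t | δ t = 0}) (hδ : DifferentiableOn ℂ δ (ball t₀ η))
    (hne : ∃ t ∈ ball t₀ η, δ t ≠ 0) {F : Set C2} (hF : IsOpen F)
    (hI : ∀ q ∈ Z, (L q).1 ∈ F → Irr Z q) :
    Polar ((fun q => (L q).1) '' {q ∈ Z | (L q).1 ∈ closure F ∧ q ∈ Bad Z}) := by
  have := second_countable_fd A
  set Q := {q ∈ Z | (L q).1 ∈ closure F ∧ q ∈ Bad Z} with hQ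
  refine ((polar_flat hδ hne).union (polar_image (f := fun q => (L q).1)
    (Q := {q ∈ Q | ∃ᶠ w in 𝓝 (L q).2, δ ((L q).1, w) ≠ 0}) fun q hq => ?_)).mono ?_
  swap
  · rintro _ ⟨q, hq, rfl⟩
    by_cases h1 : ∀ᶠ w in 𝓝 (L q).2, δ ((L q).1, w) = 0
    · exact Or.inl ⟨L q, ⟨h.fb.sub q hq.1, h1⟩, rfl⟩
    · exact Or.inr ⟨q, ⟨hq, not_eventually.1 h1⟩, rfl⟩
  have hT := h.fb.sub q hq.1.1
  have h0 : δ (L q) = 0 := by
    by_contra h1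
    obtain ⟨x, hx, hx'⟩ := mem_closure_iff_nhds.1 hq.1.2.2 _
      (L.continuous.continuousAt.preimage_mem_nhds (h.op.mem_nhds ⟨hT, h1⟩))
    exact (h.good _ hx).elim fun _ h2 => hx'.2 (irr_of_good hx'.1 h2)
  obtain ⟨v, hv, h1⟩ := exists_line (δ := fun w => δ ((L q).1, w))
    (isOpen_ball.preimage (by fun_prop : Continuous fun w : C2 => ((L q).1, w)))
    (hδ.comp (by fun_prop) (mapsTo_preimage _ _)) hT h0 hq.2
  obtain ⟨e, he, he'⟩ := exists_coord hv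
  obtain ⟨N, hN, h2⟩ := lemC (h.map e) (fun t ht => (anAt_eq isOpen_ball ht hδ
    (differentiableOn_const 0)).preimage (.of_forall fun _ => e.symm.differentiableAt)) hF
    (fun x hx hx' => hI x hx (he _ ▸ hx')) hq.1.1 (by
      have h3 : Tendsto (fun x : (C2 × ℂ) × ℂ => x.2 - (e (L q)).2) (𝓝 (e (L q))) (𝓝 0) :=
        (by fun_prop : Continuous fun x : (C2 × ℂ) × ℂ => x.2 - (e (L q)).2).tendsto' _ _
          (sub_self _)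
      filter_upwards [h3.eventually (eventually_nhdsWithin_iff.1 h1)] with x hx hxσ hxe
      have h4 : x = e (L q) + (0, x.2 - (e (L q)).2) := Prod.ext (by simpa using hxe) (by simp)
      refine Prod.ext hxe (sub_eq_zero.1 (by_contra fun h5 => hx h5 ?_))
      rw [h4, mem_preimage, map_add, e.symm_apply_apply, he'] at hxσ
      have h6 : ((L q).1, (L q).2 + (x.2 - (e (L q)).2) • v) =
          L q + (0, (x.2 - (e (L q)).2) • v) := Prod.ext (add_zero _).symm rfl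
      exact (congrArg δ h6).trans hxσ) (by simpa [he] using hq.1.2.1)
  refine ⟨N, hN, h2.mono ?_⟩
  rintro _ ⟨x, hx, rfl⟩
  exact ⟨x, ⟨⟨hx.1.1.1, by simpa [he] using hx.1.1.2.1, hx.1.1.2.2⟩, hx.2⟩, he _⟩

theorem flat [MeasurableSpace A] [BorelSpace A] {Z : Set A} (π : A →L[ℂ] C2) (ha : LocAn Z)
    (hp : Pure 8 Z) (hs : SF 8 Z) {F : Set C2} (hF : IsOpen F) (hI : ∀ q ∈ Z, π q ∈ F → Irr Z q) :
    Polar (π '' {q ∈ Z | π q ∈ closure F ∧ q ∈ Bad Z}) := by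
  have := second_countable_fd A
  set Q := {q ∈ Z | π q ∈ closure F ∧ q ∈ Bad Z} with hQ
  have h1 : Polar {z | μH[6] (Z ∩ π ⁻¹' {z}) ≠ 0} := fun ν hν =>
    eil2 (s := 6) (n := 2) (by norm_num) (by norm_num) (by norm_num; exact hs)
      π.lipschitz.lipschitzOnWith ν hν.ball_le
  refine (h1.union (polar_image (f := π) (Q := {q ∈ Q | μH[6] (Z ∩ π ⁻¹' {π q}) = 0})
    fun q hq => ?_)).mono ?_
  swap
  · rintro _ ⟨q, hq, rfl⟩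
    exact (em _).symm.imp id fun h => ⟨q, ⟨hq, h⟩, rfl⟩
  obtain ⟨L', hL'⟩ := dim_iso (T := C2) (Z := Z ∩ π ⁻¹' {π q}) (p := q) ((ha q hq.1.1).inter
    (anAt_eq isOpen_univ (mem_univ _) π.differentiableOn (differentiableOn_const _)))
    ⟨hq.1.1, rfl⟩ univ_mem (by rw [rd_C2, inter_univ]; norm_num; exact hq.2)
  obtain ⟨B, η, δ, oB, hqB, -, -, h2, hδ, hne, hg⟩ := loc (L := π.prod L') (ha q hq.1.1)
    (Eventually.mono hL' fun x hx hxZ he => hx ⟨hxZ, congrArg Prod.fst he⟩ (congrArg Prod.snd he)) univ_mem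
  refine ⟨B, oB.mem_nhds hqB, (lemB (bc_of_pure h2 hδ hne hg (rd_C4 ▸ hp.inter_open oB)) hδ hne hF
    fun x hx hx' => (irr_inter (oB.mem_nhds hx.2)).2 (hI x hx.1 hx')).mono ?_⟩
  rintro _ ⟨x, hx, rfl⟩
  exact ⟨x, ⟨⟨hx.1.1.1, hx.2⟩, hx.1.1.2.1, bad_inter oB hx.2 hx.1.1.2.2⟩, rfl⟩

end Pool.Agent.Lib.MP_823829_an.LI
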