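import Pool.Agent.Lib.MP_823829_an.HM
import Pool.Agent.Lib.MP_823829_an.LI.Cov

/-! Local irreducibility and branched covers. -/

namespace Pool.Agent.Lib.MP_823829_an.LI

open Set Metric Filter MeasureTheory
open scoped Topology ENNReal NNReal

variable {A T : Type} [NormedAddCommGroup A] [NormedSpace ℂ A] [FiniteDimensional ℂ A]
  [NormedAddCommGroup T] [NormedSpace ℂ T] [FiniteDimensional ℂ T]

/-- The points near which `Z` is contained in `Z₁`. -/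
def Inn (Z Z₁ : Set A) : Set A := {q | ∀ᶠ x in 𝓝 q, x ∈ Z → x ∈ Z₁}

/-- The germ of `Z` at `q` is irreducible. -/
def Irr (Z : Set A) (q : A) : Prop :=
  ∀ Z₁ Z₂ : Set A, AnAt Z₁ q → AnAt Z₂ q → q ∈ Inn Z (Z₁ ∪ Z₂) → q ∈ Inn Z Z₁ ∨ q ∈ Inn Z Z₂

/-- A branched cover with branch locus in `σ`. -/
structure BC (Z : Set A) (L : A →L[ℂ] T) (T₀ σ : Set T) : Prop where
  fb : FB Z L T₀
  neg : Neg σ T₀
  op : IsOpen (T₀ \ σ)
  good : ∀ t ∈ T₀ \ σ, ∃ d, Good Z L d t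
  dense : Z ⊆ closure (Z \ L ⁻¹' σ)

omit [NormedSpace ℂ A] [FiniteDimensional ℂ A] in
theorem inn_congr {Z Z' Z₁ : Set A} {q : A} (he : ∀ᶠ x in 𝓝 q, x ∈ Z ↔ x ∈ Z') :
    q ∈ Inn Z Z₁ ↔ q ∈ Inn Z' Z₁ :=
  ⟨fun h => (he.and h).mono fun _ hx h' => hx.2 (hx.1.2 h'),
    fun h => (he.and h).mono fun _ hx h' => hx.2 (hx.1.1 h')⟩

omit [FiniteDimensional ℂ A] in
theorem Irr.congr {Z Z' : Set A} {q : A} (h : Irr Z q) (he : ∀ᶠ x in 𝓝 q, x ∈ Z ↔ x ∈ Z') :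
    Irr Z' q := fun Z₁ Z₂ h₁ h₂ h₃ => by
  rw [← inn_congr he] at h₃ ⊢
  rw [← inn_congr he]
  exact h Z₁ Z₂ h₁ h₂ h₃

omit [FiniteDimensional ℂ A] in
theorem irr_inter {Z N : Set A} {q : A} (hN : N ∈ 𝓝 q) : Irr (Z ∩ N) q ↔ Irr Z q :=
  ⟨fun h => h.congr (mem_of_superset hN fun _ hx => ⟨fun h => h.1, fun h => ⟨h, hx⟩⟩),
    fun h => h.congr (mem_of_superset hN fun _ hx => ⟨fun h => ⟨h, hx⟩, fun h => h.1⟩)⟩

omit [FiniteDimensional ℂ A] [FiniteDimensional ℂ T] in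
theorem Clo.mono {C C' P : Set A} {L : A →L[ℂ] T} {N N' : Set T} (h : Clo C P L N) (hC : C' ⊆ C)
    (hN : N' ⊆ N) : Clo C' P L N' :=
  fun q hq hq' => (h q (hC hq) (hN hq')).mono fun _ hx hx' => hx (hC hx')

omit [FiniteDimensional ℂ A] [FiniteDimensional ℂ T] in
theorem Clo.compl {C P : Set A} {L : A →L[ℂ] T} {N : Set T} (h : Clo C P L N) : Clo C Pᶜ L N :=
  fun q hq hq' => (h q hq hq').mono fun _ hx hx' => not_congr (hx hx')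

theorem sheet_dich {Z Z₁ : Set A} {L : A →L[ℂ] T} {U : Set T} {d : ℕ} {h : Fin d → T → A}
    (hs : Sheets Z L U d h) (hU : IsOpen U) (hc : IsPreconnected U) (j : Fin d)
    (ha : ∀ u ∈ U, AnAt Z₁ (h j u)) :
    (∀ u ∈ U, h j u ∈ Inn Z Z₁) ∨ (Neg (h j ⁻¹' Z₁) U ∧ ∀ u ∈ U, h j u ∉ Inn Z Z₁) := by
  have hd : ∀ u ∈ U, ∀ᶠ y in 𝓝 u, DifferentiableAt ℂ (h j) y := fun u hu =>
    mem_of_superset (hU.mem_nhds hu) fun y hy => (hs.hol j).differentiableAt (hU.mem_nhds hy)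
  rcases an_dich hU hc (fun u hu => (ha u hu).preimage (hd u hu)) with h1 | h1
  · refine Or.inl fun u hu => ?_
    have h2 : L ⁻¹' U ∈ 𝓝 (h j u) := L.continuous.continuousAt.preimage_mem_nhds
      (by rw [hs.sec j u hu]; exact hU.mem_nhds hu)
    filter_upwards [hs.isOpen hU j hu, h2] with x hx hx' hxZ
    rw [hx hxZ]; exact h1 hx'
  · refine Or.inr ⟨h1, fun u hu h2 => ?_⟩
    have h3 := (hd u hu).self_of_nhds.continuousAt.eventually h2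
    refine h1.frequently hu ?_
    filter_upwards [h3, hU.mem_nhds hu] with y hy hy'
    exact not_not.2 (hy (hs.mem_self j hy'))

theorem clo_inn {Z Z₁ : Set A} {L : A →L[ℂ] T} {V : Set T} (hV : IsOpen V)
    (hg : ∀ t ∈ V, ∃ d, Good Z L d t) (ha : ∀ x ∈ Z, L x ∈ V → AnAt Z₁ x) :
    Clo Z (Inn Z Z₁) L V := by
  intro q hq hq'
  obtain ⟨d, hd⟩ := hg _ hq'
  obtain ⟨r, hr, hrV, h, hs⟩ := hd.exists_ball (hV.mem_nhds hq')
  obtain ⟨j, hj⟩ := (hs.mem q (mem_ball_self hr)).1 hq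
  have h1 := hs.isOpen isOpen_ball j (mem_ball_self hr)
  rw [← hj] at h1
  have h2 := sheet_dich hs isOpen_ball (convex_ball _ _).isPreconnected j (Z₁ := Z₁)
    fun u hu => ha _ (hs.mem_self j hu) (by rw [hs.sec j u hu]; exact hrV hu)
  filter_upwards [h1, L.continuous.continuousAt.preimage_mem_nhds (ball_mem_nhds _ hr)] with x hx
    hx' hxZ
  rw [hx hxZ, hj]
  rcases h2 with h2 | ⟨-, h2⟩
  · exact iff_of_true (h2 _ hx') (h2 _ (mem_ball_self hr))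
  · exact iff_of_false (h2 _ hx') (h2 _ (mem_ball_self hr))

theorem irr_of_good {Z : Set A} {L : A →L[ℂ] T} {d : ℕ} {q : A} (hq : q ∈ Z)
    (hg : Good Z L d (L q)) : Irr Z q := by
  intro Z₁ Z₂ h₁ h₂ h₃
  obtain ⟨U, hU, hqU, h, hs⟩ := hg
  obtain ⟨j, hj⟩ := (hs.mem q hqU).1 hq
  have h4 : ContinuousAt (h j) (L q) := ((hs.hol j).differentiableAt (hU.mem_nhds hqU)).continuousAt
  have h5 : ∀ᶠ x in 𝓝 (h j (L q)), AnAt Z₁ x ∧ AnAt Z₂ x ∧ (x ∈ Z → x ∈ Z₁ ∪ Z₂) := by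
    rw [← hj]; exact h₁.eventually.and (h₂.eventually.and h₃)
  obtain ⟨r, hr, hb⟩ := Metric.mem_nhds_iff.1 ((h4.eventually h5).and (hU.mem_nhds hqU))
  have hs' := hs.mono (U' := ball (L q) r) fun u hu => (hb hu).2
  have hc := (convex_ball (L q) r).isPreconnected
  rcases sheet_dich hs' isOpen_ball hc j fun u hu => (hb hu).1.1 with h6 | ⟨h6, -⟩
  · exact Or.inl (hj ▸ h6 _ (mem_ball_self hr))
  rcases sheet_dich hs' isOpen_ball hc j fun u hu => (hb hu).1.2.1 with h7 | ⟨h7, -⟩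
  · exact Or.inr (hj ▸ h7 _ (mem_ball_self hr))
  obtain ⟨u, hu, hu'⟩ := (h6.union h7).exists_mem isOpen_ball subset_rfl ⟨_, mem_ball_self hr⟩
  exact (hu' ((hb hu).1.2.2 (hs'.mem_self j hu))).elim

theorem clo_good {Z P : Set A} {L : A →L[ℂ] T} {V : Set T} (hV : IsOpen V) (hP : Clo Z P L V)
    {t : T} (ht : t ∈ V) {d : ℕ} (hg : Good Z L d t) : ∃ d', Good (Z ∩ P) L d' t := by
  obtain ⟨r, hr, hrV, h, hs⟩ := hg.exists_ball (hV.mem_nhds ht)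
  obtain ⟨d', h', hs'⟩ := hs.sub (Z' := Z ∩ P) (fun _ _ hx => hx.1) fun j => by
    have h1 : IsLocallyConstant fun u : ball t r => h j u ∈ P := by
      refine (IsLocallyConstant.iff_eventually_eq _).2 fun u => ?_
      have h2 : ContinuousAt (fun u : ball t r => h j u) u :=
        (hs.hol j).continuousOn.domRestrict.continuousAt
      filter_upwards [h2.eventually (hP _ (hs.mem_self j u.2)
        (by rw [hs.sec j _ u.2]; exact hrV u.2))] with v hv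
      exact propext (hv (hs.mem_self j v.2))
    have := isPreconnected_iff_preconnectedSpace.1 (convex_ball t r).isPreconnected
    have h3 := fun u hu => h1.apply_eq_of_preconnectedSpace ⟨u, hu⟩ ⟨t, mem_ball_self hr⟩
    by_cases h4 : h j t ∈ P
    · exact Or.inl fun u hu => ⟨hs.mem_self j hu, (h3 u hu).symm ▸ h4⟩
    · exact Or.inr fun u hu h5 => h4 (h3 u hu ▸ h5.2)
  exact ⟨d', _, isOpen_ball, mem_ball_self hr, h', hs'⟩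

theorem BC.restrict {Z : Set A} {L : A →L[ℂ] T} {T₀ T₁ σ : Set T} (h : BC Z L T₀ σ)
    (h1 : IsOpen T₁) (hs : T₁ ⊆ T₀) : BC (Z ∩ L ⁻¹' T₁) L T₁ σ := by
  refine ⟨h.fb.restrict h1 hs, h.neg.subset hs subset_rfl, ?_, fun t ht => ?_, fun x hx => ?_⟩
  · have : T₁ \ σ = T₁ ∩ (T₀ \ σ) := by
      ext t; exact ⟨fun h => ⟨h.1, hs h.1, h.2⟩, fun h => ⟨h.1, h.2.2⟩⟩
    rw [this]; exact h1.inter h.op
  · obtain ⟨d, hd⟩ := h.good t ⟨hs ht.1, ht.2⟩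
    refine ⟨d, hd.congr (mem_of_superset (h1.mem_nhds ht.1) fun t' ht' x hx => ?_)⟩
    exact ⟨fun h => ⟨h, show L x ∈ T₁ from hx ▸ ht'⟩, fun h => h.1⟩
  · have h2 := (h1.preimage L.continuous).closure_inter (s := Z \ L ⁻¹' σ) ⟨h.dense hx.1, hx.2⟩
    refine closure_mono ?_ h2
    exact fun y hy => ⟨⟨hy.1.1, hy.2⟩, hy.1.2⟩

omit [FiniteDimensional ℂ T] in
theorem BC.inn {Z Z₁ N : Set A} {L : A →L[ℂ] T} {T₀ σ : Set T} (h : BC Z L T₀ σ) {q : A}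
    (hN : N ∈ 𝓝 q) (ha : AnAt Z₁ q) (hs : ∀ x ∈ Z, x ∈ N → L x ∉ σ → x ∈ Z₁) : q ∈ Inn Z Z₁ := by
  filter_upwards [ha.eventually, interior_mem_nhds.2 hN] with x hx hx' hxZ
  refine hx.mem_of_closure (closure_mono ?_
    (isOpen_interior.closure_inter (s := Z \ L ⁻¹' σ) ⟨h.dense hxZ, hx'⟩))
  exact fun y hy => hs y hy.1.1 (interior_subset hy.2) hy.1.2

theorem BC.hm {Z P : Set A} {L : A →L[ℂ] T} {T₀ σ : Set T} (h : BC Z L T₀ σ)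
    (hc : IsPreconnected T₀) (hP : Clo Z P L (T₀ \ σ)) :
    ∃ (k : ℕ) (Y : T → Fin k → A), HM Y T₀ ∧
      ∀ t ∈ T₀ \ σ, ∀ x, (x ∈ Z ∧ x ∈ P ∧ L x = t) ↔ ∃ j, x = Y t j := by
  set C : Set A := Z ∩ P ∩ L ⁻¹' (T₀ \ σ) with hC
  obtain ⟨k, hk⟩ := good_const (Z := C) (L := L) (h.neg.preconnected h.fb.op hc h.op)
    fun t ht => by
      obtain ⟨d, hd⟩ := h.good t ht
      obtain ⟨d', hd'⟩ := clo_good h.op hP ht hd
      refine ⟨d', hd'.congr (mem_of_superset (h.op.mem_nhds ht) fun t' ht' x hx => ?_)⟩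
      exact ⟨fun h => ⟨h, show L x ∈ T₀ \ σ from hx ▸ ht'⟩, fun h => h.1⟩
  obtain ⟨Y, hY, h1, -⟩ := t3 h.fb.op h.neg h.op (C := C)
    (h.fb.bdd.subset fun _ hx => hx.1.1) (fun _ hx => hx.2) hk
  refine ⟨k, Y, hY, fun t ht x => ?_⟩
  rw [← h1 t ht.1 x]
  constructor
  · rintro ⟨h2, h3, h4⟩
    exact ⟨subset_closure ⟨⟨h2, h3⟩, show L x ∈ T₀ \ σ from h4 ▸ ht⟩, h4⟩
  · rintro ⟨h2, h3⟩
    have h4 : x ∈ Z := (h.fb.an x (h3 ▸ ht.1)).mem_of_closure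
      (closure_mono (fun _ hy => hy.1.1) h2)
    obtain ⟨y, hy, hy'⟩ := (mem_closure_iff_frequently.1 h2).and_eventually
      (hP x h4 (h3 ▸ ht)) |>.exists
    exact ⟨h4, (hy' hy.1.1).1 hy.1.2, h3⟩

theorem BC.not_irr {Z P : Set A} {L : A →L[ℂ] T} {T₀ σ : Set T} (h : BC Z L T₀ σ)
    (hc : IsPreconnected T₀) (hP : Clo Z P L (T₀ \ σ)) {x₁ x₂ q : A} (h₁ : x₁ ∈ Z) (h₂ : x₂ ∈ Z)
    (h₁' : L x₁ ∉ σ) (h₂' : L x₂ ∉ σ) (hP₁ : x₁ ∈ P) (hP₂ : x₂ ∉ P) (hq : q ∈ Z)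
    (hu : ∀ x ∈ Z, L x = L q → x = q) : ¬ Irr Z q := by
  have hqT := h.fb.sub q hq
  have key : ∀ {P : Set A} {k k' : ℕ} {Y : T → Fin k → A} {Y' : T → Fin k' → A} {x₂ : A},
      (∀ t ∈ T₀ \ σ, ∀ x, (x ∈ Z ∧ x ∈ P ∧ L x = t) ↔ ∃ j, x = Y t j) →
      (∀ t ∈ T₀ \ σ, ∀ x, (x ∈ Z ∧ x ∈ Pᶜ ∧ L x = t) ↔ ∃ j, x = Y' t j) → x₂ ∈ Z → L x₂ ∉ σ →
      x₂ ∉ P → q ∉ Inn Z {x | ∃ j, x = Y (L x) j} := by
    intro P k k' Y Y' x₂ hY hY' h₂ h₂' hP₂ hi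
    obtain ⟨j, -⟩ := (hY' _ ⟨h.fb.sub _ h₂, h₂'⟩ x₂).1 ⟨h₂, hP₂, rfl⟩
    have h3 := h.fb.tube hqT isOpen_interior (N := interior {x | x ∈ Z → ∃ j, x = Y (L x) j})
      fun x hx hx' => by rw [hu x hx hx']; exact mem_interior_iff_mem_nhds.2 hi
    obtain ⟨t, ht, ht1, ht2⟩ := ((h.neg.frequently hqT).and_eventually
      (h3.and (h.fb.op.mem_nhds hqT))).exists
    obtain ⟨h4, h5, h6⟩ := (hY' t ⟨ht2, ht⟩ (Y' t j)).2 ⟨j, rfl⟩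
    have h7 := interior_subset (ht1 _ h4 h6) h4
    rw [h6] at h7
    exact h5 ((hY t ⟨ht2, ht⟩ _).2 h7).2.1
  obtain ⟨k, Y, hY, h3⟩ := h.hm hc hP
  obtain ⟨k', Y', hY', h4⟩ := h.hm hc hP.compl
  intro hi
  have h5 := hY.anAt h.fb.op L hqT
  have h6 := hY'.anAt h.fb.op L hqT
  rcases hi _ _ h5 h6 (h.inn univ_mem (h5.union h6) fun x hx _ hx' => by
    by_cases hxP : x ∈ P
    · exact Or.inl ((h3 _ ⟨h.fb.sub _ hx, hx'⟩ x).1 ⟨hx, hxP, rfl⟩)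
    · exact Or.inr ((h4 _ ⟨h.fb.sub _ hx, hx'⟩ x).1 ⟨hx, hxP, rfl⟩)) with h7 | h7
  · exact key h3 h4 h₂ h₂' hP₂ h7
  · exact key h4 (by simpa using h3) h₁ h₁' (not_not.2 hP₁) h7

end Pool.Agent.Lib.MP_823829_an.LI
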