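import Pool.Agent.Lib.MP_823829_an.Main
import Pool.Agent.Lib.MP_823829_an.LI.Addon

/-! The extension theorem with local irreducibility. -/

namespace Pool.Agent.Lib.MP_823829_an

open Set Metric Filter MeasureTheory
open scoped Topology ENNReal NNReal ContDiff ComplexConjugate Manifold

variable {m : ℕ} {X : Type*} [TopologicalSpace X] [ChartedSpace (Fin m → ℂ) X]
  [IsManifold 𝓘(ℂ, Fin m → ℂ) 1 X] [CompactSpace X] [T2Space X]

theorem main_thm2 (Ω : (x : X) → Form (TangentSpace 𝓘(ℂ, Fin m → ℂ) x))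
    (hΩ : IsPosPluriclosed Ω) {r : ℝ} (hr0 : 0 < r) (hr1 : r < 1) (Γ : Set (C4 × X))
    (hΓ : IsMeromorphicGraph m (hartogs r) Γ) :
    ∃ A : Set C4, A ⊆ polydisc \ hartogs r ∧ IsOpen (polydisc \ A) ∧
      (∀ t : ℝ, 2 < t → μH[t] A = 0) ∧
      ∃ Γ' : Set (C4 × X), IsMeromorphicGraph m (polydisc \ A) Γ' ∧
        Γ' ∩ hartogs r ×ˢ univ = Γ ∧
        (IsLocallyIrreducible m Γ → IsLocallyIrreducible m Γ') := by
  obtain ⟨⟨han, ⟨p₀, hp₀⟩, hirr⟩, -, O, hOH, hO, hOd, hu⟩ := hΓ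
  have : Nonempty X := ⟨p₀.2⟩
  obtain ⟨a, ha, ⟨F⟩⟩ := exists_frm hΩ
  have hHo : IsOpen (hartogs r) := by rw [hartogs_eq]; exact isOpen_hart _ _ _
  have hHc : IsPreconnected (hartogs r) := by
    rw [hartogs_eq]
    exact isPreconnected_hart (by linarith) (by linarith) hr0 hr1
  have han' : AnOn a (hartogs r) Γ := (analyticIn_iff a ha _ _).1 han
  have hp₀H : p₀.1 ∈ hartogs r := han'.1 p₀ hp₀
  have hOne : O.Nonempty := closure_nonempty_iff.1 ⟨_, hOd hp₀H⟩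
  have hMG : MG a (hartogs r) Γ :=
    mg_of_irr hHo hHc han' (fun Z₁ Z₂ h₁ h₂ he =>
      hirr Z₁ Z₂ ((analyticIn_iff a ha _ _).2 h₁) ((analyticIn_iff a ha _ _).2 h₂) he)
      hO hOne hOH hu
  obtain ⟨D, hHD, hDP, hnull, Γ', hΓ', hag, hli⟩ : ∃ D : Set C4, hartogs r ⊆ D ∧ D ⊆ polydisc ∧
      (∀ t : ℝ, 2 < t → μH[t] (polydisc \ D) = 0) ∧ ∃ Γ' : Set (C4 × X), MG a D Γ' ∧
        Agree Γ' Γ (hartogs r) ∧ (LIrr a Γ → LIrr a Γ') := by
    obtain ⟨D, hHD, hDP, hnull, Γ', hΓ', hag⟩ := glob_dim F hr0 hr1 hMG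
    by_cases hl : LIrr a Γ
    · obtain ⟨D₂, h1, h2, h3, h4, h5⟩ := li_addon hr1 hHD hDP hnull hΓ' hag hl
      exact ⟨D₂, h2, h3.trans hDP, h4, _, hΓ'.restrict h1 h3,
        fun t ht x => (and_iff_left (h2 ht)).trans (hag t ht x), fun _ => h5⟩
    · exact ⟨D, hHD, hDP, hnull, Γ', hΓ', hag, fun h => (hl h).elim⟩
  have hD : polydisc \ (polydisc \ D) = D := by
    rw [sdiff_sdiff_cancel_left hDP]
  have hDc : IsConnected D := by
    refine ⟨⟨_, hHD hp₀H⟩, ?_⟩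
    have h7 : μH[rd C4 - 1] (polydisc \ D) = 0 := hnull _ (by rw [rd_C4]; norm_num)
    have hs : Slim ((polydisc \ D) ∩ polydisc) := (slim_of_null h7).mono inter_subset_left
    have := (conn isOpen_polydisc convex_polydisc.isPreconnected (by rw [hD]; exact hΓ'.op) hs).1
    rwa [hD] at this
  refine ⟨polydisc \ D, sdiff_subset_sdiff_right hHD, by rw [hD]; exact hΓ'.op, hnull, Γ', ?_, ?_,
    fun h => (locallyIrreducible_iff a ha _).2 (hli ((locallyIrreducible_iff a ha _).1 h))⟩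
  · rw [hD]
    exact main_mero a ha hΓ' hDc
  · ext p
    constructor
    · rintro ⟨h1, h2, -⟩
      exact (hag p.1 h2 p.2).1 h1
    · intro h1
      have h2 := han'.1 p h1
      exact ⟨(hag p.1 h2 p.2).2 h1, h2, mem_univ _⟩

end Pool.Agent.Lib.MP_823829_an
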