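import Pool.Agent.Lib.MP_823829_an.LI.Cell
import Pool.Agent.Lib.MP_823829_an.Th
import Pool.Agent.Lib.MP_823829_an.PTB
import Pool.Agent.Lib.MP_823829_an.Key

/-! Small cells, and polar sets of exceptional base points. -/

namespace Pool.Agent.Lib.MP_823829_an.LI

open Set Metric Filter MeasureTheory
open scoped Topology ENNReal NNReal

variable {A T P : Type} [NormedAddCommGroup A] [NormedSpace ℂ A] [FiniteDimensional ℂ A]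
  [NormedAddCommGroup T] [NormedSpace ℂ T] [FiniteDimensional ℂ T]
  [NormedAddCommGroup P] [NormedSpace ℂ P] [FiniteDimensional ℂ P]

theorem loc {Z N : Set A} {q : A} {L : A →L[ℂ] T} (ha : AnAt Z q) (hi : Iso Z q L) (hN : N ∈ 𝓝 q) :
    ∃ (B : Set A) (η : ℝ) (δ : T → ℂ), IsOpen B ∧ q ∈ B ∧ B ⊆ N ∧ 0 < η ∧
      FB (Z ∩ B) L (ball (L q) η) ∧ DifferentiableOn ℂ δ (ball (L q) η) ∧
      (∃ t ∈ ball (L q) η, δ t ≠ 0) ∧ ∀ t ∈ ball (L q) η, δ t ≠ 0 → ∃ d, Good (Z ∩ B) L d t := by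
  obtain ⟨ρ, hρ, η₀, hη₀, h1, h2, h3, -⟩ := hi.scale ha hN
  obtain ⟨U, hU, hqU, δ, hδ, h4, h5⟩ := t2_loc (scale_fb h2 h3) _ (mem_ball_self hη₀)
  obtain ⟨η, hη, hb⟩ := Metric.mem_nhds_iff.1 (inter_mem (hU.mem_nhds hqU) (ball_mem_nhds _ hη₀))
  have h6 := (scale_fb h2 h3).restrict isOpen_ball fun t ht => (hb ht).2
  refine ⟨box q L ρ η₀ ∩ L ⁻¹' ball (L q) η, η, δ,
    (isOpen_box _ _ _ _).inter (isOpen_ball.preimage L.continuous),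
    ⟨mem_of_mem_nhds (box_mem_nhds _ _ hρ hη₀), mem_ball_self hη⟩,
    fun x hx => h1 (ball_subset_closedBall hx.1.1), hη, by rwa [← inter_assoc],
    hδ.mono fun t ht => (hb ht).1, ?_, fun t ht h7 => ?_⟩
  · obtain ⟨t, h7, h8⟩ := ((h5 _ hqU).and_eventually (ball_mem_nhds _ hη)).exists
    exact ⟨t, h8, h7⟩
  · obtain ⟨d, hd⟩ := not_not.1 fun h => h7 (h4 t (hb ht).1 h)
    refine ⟨d, hd.congr (mem_of_superset (isOpen_ball.mem_nhds ht) fun t' ht' x hx => ?_)⟩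
    exact ⟨fun h => ⟨h.1, h.2, show L x ∈ _ from hx ▸ ht'⟩, fun h => ⟨h.1, h.2.1⟩⟩

omit [FiniteDimensional ℂ T] in
theorem isOpen_ne {U : Set T} (hU : IsOpen U) {δ : T → ℂ} (hδ : DifferentiableOn ℂ δ U) :
    IsOpen (U \ {t | δ t = 0}) :=
  hδ.continuousOn.isOpen_inter_preimage hU (isOpen_compl_singleton (x := 0))

theorem bc_of_pure [MeasurableSpace A] [BorelSpace A] {Z : Set A} {L : A →L[ℂ] T} {t₀ : T} {η : ℝ}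
    {δ : T → ℂ} (h : FB Z L (ball t₀ η)) (hδ : DifferentiableOn ℂ δ (ball t₀ η))
    (hne : ∃ t ∈ ball t₀ η, δ t ≠ 0) (hg : ∀ t ∈ ball t₀ η, δ t ≠ 0 → ∃ d, Good Z L d t)
    (hp : Pure (rd T) Z) : BC Z L (ball t₀ η) {t | δ t = 0} := by
  borelize T
  have h1 := neg_zero isOpen_ball (convex_ball _ _).isPreconnected hδ hne
  refine ⟨h, h1, isOpen_ne isOpen_ball hδ, fun t ht => hg t ht.1 ht.2, fun x hx => ?_⟩
  refine mem_closure_iff_nhds.2 fun N hN => by_contra fun h2 => hp x hx N hN ?_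
  refine measure_mono_null (fun y hy => ?_)
    (th_neg_null (fun p hp => ⟨h.an p (h.sub p hp), h.iso hp⟩) h1)
  exact ⟨hy.1, by_contra fun h3 => h2 ⟨y, hy.2, hy.1, h3⟩, h.sub y hy.1⟩

theorem BC.sub {Z N : Set A} {L : A →L[ℂ] T} {T₀ σ : Set T} (h : BC Z L T₀ σ) {q : A}
    (hq : q ∈ Z) (hN : N ∈ 𝓝 q) : ∃ (B : Set A) (η : ℝ), IsOpen B ∧ q ∈ B ∧ B ⊆ N ∧ 0 < η ∧
      ball (L q) η ⊆ T₀ ∧ BC (Z ∩ B) L (ball (L q) η) σ := by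
  obtain ⟨ρ, hρ, η₀, hη₀, h1, h2, h3, -⟩ := (h.fb.iso hq).scale (h.fb.an q (h.fb.sub q hq)) hN
  obtain ⟨η₁, hη₁, hb₁⟩ := Metric.mem_nhds_iff.1 (h.fb.op.mem_nhds (h.fb.sub q hq))
  have hη := lt_min hη₀ hη₁
  set η := min η₀ η₁
  have hb : ball (L q) η ⊆ T₀ := (ball_subset_ball (min_le_right _ _)).trans hb₁
  have h4 : Disjoint (side q L ρ η) Z := h3.mono_left (side_mono _ _ _ (min_le_left _ _))
  have h5 := h.restrict isOpen_ball hb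
  have h6 : Clo Z (ball q ρ) L (ball (L q) η \ σ) := by
    intro x hx hx'
    rcases lt_trichotomy (dist x q) ρ with h7 | h7 | h7
    · exact mem_of_superset (isOpen_ball.mem_nhds h7) fun y hy _ => iff_of_true hy h7
    · exact (disjoint_left.1 h4 ⟨h7, ball_subset_closedBall hx'.1⟩ hx).elim
    · refine mem_of_superset (isClosed_closedBall.isOpen_compl.mem_nhds (not_le.2 h7)) ?_
      exact fun y hy _ => iff_of_false (fun h8 => hy (ball_subset_closedBall h8)) (not_lt.2 h7.le)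
  refine ⟨box q L ρ η, η, isOpen_box _ _ _ _, mem_of_mem_nhds (box_mem_nhds _ _ hρ hη),
    fun x hx => h1 (ball_subset_closedBall hx.1), hη, hb, scale_fb h2 h4, h5.neg, h5.op,
    fun t ht => ?_, fun x hx => ?_⟩
  · obtain ⟨d, hd⟩ := h.good t ⟨hb ht.1, ht.2⟩
    obtain ⟨d', hd'⟩ := clo_good h5.op h6 ht hd
    refine ⟨d', hd'.congr (mem_of_superset (isOpen_ball.mem_nhds ht.1) fun t' ht' x hx => ?_)⟩
    exact ⟨fun h => ⟨h.1, h.2, show L x ∈ _ from hx ▸ ht'⟩, fun h => ⟨h.1, h.2.1⟩⟩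
  · refine closure_mono ?_
      ((isOpen_box q L ρ η).closure_inter (s := Z \ L ⁻¹' σ) ⟨h.dense hx.1, hx.2⟩)
    exact fun y hy => ⟨⟨hy.1.1, hy.2⟩, hy.1.2⟩

theorem uni {Z : Set A} {L : A →L[ℂ] P × ℂ} {T₀ σ : Set (P × ℂ)} (h : BC Z L T₀ σ) {S : Set P}
    {q₀ : A} (hq : q₀ ∈ Z) (hqσ : L q₀ ∈ σ) (hqS : (L q₀).1 ∈ S)
    (hσ : ∃ N ∈ 𝓝 (L q₀), InjOn Prod.fst (σ ∩ Prod.fst ⁻¹' S ∩ N))
    (hZ : ∃ N ∈ 𝓝 q₀, InjOn L (Z ∩ L ⁻¹' (σ ∩ Prod.fst ⁻¹' S) ∩ N)) :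
    ∃ N ∈ 𝓝 q₀, ∀ q₁ ∈ Z ∩ L ⁻¹' (σ ∩ Prod.fst ⁻¹' S) ∩ N,
      ∀ q₂ ∈ Z ∩ L ⁻¹' (σ ∩ Prod.fst ⁻¹' S) ∩ N, Irr Z q₂ → Irr Z q₁ := by
  obtain ⟨N₁, hN₁, h₁⟩ := hσ
  obtain ⟨N₂, hN₂, h₂⟩ := hZ
  obtain ⟨B, η₀, oB, hqB, hBN, hη₀, -, h3⟩ := h.sub hq hN₂
  obtain ⟨η, hη, hb⟩ := Metric.mem_nhds_iff.1 (inter_mem hN₁ (ball_mem_nhds _ hη₀))
  set p := (L q₀).1
  set c := (L q₀).2
  have hK : IsCompact (closedBall c (η / 2) \ ball c (η / 4)) :=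
    (isCompact_closedBall _ _).diff isOpen_ball
  have hm : ∀ p' ∈ ball p η, ∀ z ∈ closedBall c (η / 2), (p', z) ∈ ball (L q₀) η := by
    intro p' hp' z hz
    rw [← ball_prod_same]
    exact ⟨hp', closedBall_subset_ball (half_lt_self hη) hz⟩
  have h4 : ∀ᶠ p' in 𝓝 p, ∀ z ∈ closedBall c (η / 2) \ ball c (η / 4), (p', z) ∉ σ := by
    refine hK.eventually_forall_of_forall_eventually fun z hz => ?_
    have h5 := hb (hm p (mem_ball_self hη) z hz.1)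
    refine mem_of_superset (h3.op.mem_nhds ⟨h5.2, fun h6 => hz.2 ?_⟩) fun t ht => ht.2
    have h7 := h₁ (x₁ := (p, z)) ⟨⟨h6, hqS⟩, h5.1⟩ ⟨⟨hqσ, hqS⟩, mem_of_mem_nhds hN₁⟩ rfl
    rw [show z = c from congrArg Prod.snd h7]
    exact mem_ball_self (by linarith)
  obtain ⟨ε, hε, hbε⟩ := Metric.mem_nhds_iff.1 (inter_mem h4 (ball_mem_nhds p hη))
  set T₁ := ball p ε ×ˢ ball c (η / 2)
  have oT : IsOpen T₁ := isOpen_ball.prod isOpen_ball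
  have hT : T₁ ⊆ N₁ ∩ ball (L q₀) η₀ := fun t ht =>
    hb (hm _ (hbε ht.1).2 _ (ball_subset_closedBall ht.2))
  have h5 := h3.restrict oT fun t ht => (hT ht).2
  have oN : IsOpen (B ∩ L ⁻¹' T₁) := oB.inter (oT.preimage L.continuous)
  have hu : ∀ q ∈ Z ∩ L ⁻¹' (σ ∩ Prod.fst ⁻¹' S) ∩ (B ∩ L ⁻¹' T₁), ∀ x ∈ Z ∩ B ∩ L ⁻¹' T₁,
      L x = L q → x = q := fun q hq x hx he =>
    h₂ ⟨⟨hx.1.1, by rw [mem_preimage, he]; exact hq.1.2⟩, hBN hx.1.2⟩ ⟨hq.1, hBN hq.2.1⟩ he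
  refine ⟨_, oN.mem_nhds ⟨hqB, mem_ball_self hε, mem_ball_self (half_pos hη)⟩,
    fun q₁ hq₁ q₂ hq₂ hi => ?_⟩
  rw [← irr_inter (oN.mem_nhds hq₂.2), ← inter_assoc] at hi
  rw [← irr_inter (oN.mem_nhds hq₁.2), ← inter_assoc]
  refine cell h5 (R' := η / 4) (by linarith) (fun t ht htσ => ?_) ⟨⟨hq₁.1.1, hq₁.2.1⟩, hq₁.2.2⟩
    ⟨⟨hq₂.1.1, hq₂.2.1⟩, hq₂.2.2⟩ (hu _ hq₁) (hu _ hq₂) (fun a ha haσ => ?_) hi
  · exact by_contra fun h6 => (hbε ht.1).1 t.2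
      ⟨ball_subset_closedBall ht.2, fun h7 => h6 (ball_subset_closedBall h7)⟩ htσ
  · have h6 : ((L q₁).1, a) ∈ T₁ := ⟨hq₁.2.2.1, ha⟩
    exact congrArg Prod.snd (h₁ ⟨⟨haσ, hq₁.1.2.2⟩, (hT h6).1⟩ ⟨hq₁.1.2, (hT hq₁.2.2).1⟩ rfl)

/-- Near `q` the map `L` is injective on `W`, and it is open at `q`. -/
def Sh (W : Set A) (L : A →L[ℂ] T) (q : A) : Prop :=
  (∃ N ∈ 𝓝 q, InjOn L (W ∩ N)) ∧ ∀ N ∈ 𝓝 q, L '' (W ∩ N) ∈ 𝓝 (L q)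

theorem sh_of_good {W B : Set A} {L : A →L[ℂ] T} {q : A} {d : ℕ} (hq : q ∈ W) (hB : B ∈ 𝓝 q)
    (hg : Good (W ∩ B) L d (L q)) : Sh W L q := by
  obtain ⟨U, hU, hqU, h, hs⟩ := hg
  obtain ⟨j, hj⟩ := (hs.mem q hqU).1 ⟨hq, mem_of_mem_nhds hB⟩
  have h1 := hs.isOpen hU j hqU
  have h2 : ContinuousAt (h j) (L q) :=
    ((hs.hol j).differentiableAt (hU.mem_nhds hqU)).continuousAt
  rw [← hj] at h1
  refine ⟨⟨_, inter_mem h1 hB, fun x hx y hy he => ?_⟩, fun N hN => ?_⟩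
  · rw [hx.2.1 ⟨hx.1, hx.2.2⟩, hy.2.1 ⟨hy.1, hy.2.2⟩, he]
  · filter_upwards [h2.preimage_mem_nhds (hj ▸ hN), hU.mem_nhds hqU] with u hu hu'
    exact ⟨h j u, ⟨(hs.mem_self j hu').1, hu⟩, hs.sec j u hu'⟩

theorem clo_empty {Y Q : Set A} {L : A →L[ℂ] T} {B : Set T} (hB : IsOpen B)
    (hc : IsPreconnected B) (hg : ∀ t ∈ B, ∃ d, Good Y L d t) (hQ : Clo Y Q L B) {t₀ : T}
    (ht₀ : t₀ ∈ B) (h0 : ∀ q ∈ Y, L q = t₀ → q ∉ Q) : ∀ q ∈ Y, L q ∈ B → q ∉ Q := by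
  obtain ⟨d, hd⟩ := good_const (Z := Y ∩ Q) (L := L) hc fun t ht =>
    (hg t ht).elim fun _ h => clo_good hB hQ ht h
  intro q hq hq' hqQ
  have h1 := (hd _ ht₀).encard
  rw [← (hd _ hq').encard, eq_empty_of_forall_notMem (s := Y ∩ Q ∩ L ⁻¹' {t₀})
    fun x hx => h0 x hx.1.1 hx.2 hx.1.2, encard_empty, eq_comm, encard_eq_zero] at h1
  exact eq_empty_iff_forall_notMem.1 h1 q ⟨⟨hq, hqQ⟩, rfl⟩

theorem polar_of_neg {σ U : Set C2} (h : Neg σ U) : Polar (σ ∩ U) := by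
  obtain ⟨s, h1, h2⟩ := neg_sf h
  rw [rd_C2, show (4 : ℝ) - 2 = 2 by norm_num] at h2
  exact (polar_iUnion fun n => pt_polar.2 (PT.np_of_lt_top (h2 n))).mono h1

omit [NormedSpace ℂ A] [FiniteDimensional ℂ A] in
theorem polar_image [SecondCountableTopology A] {f : A → C2} {Q : Set A}
    (h : ∀ q ∈ Q, ∃ N ∈ 𝓝 q, Polar (f '' (Q ∩ N))) : Polar (f '' Q) := by
  choose! N hN hp using h
  obtain ⟨s, hs, hc, hcov⟩ := TopologicalSpace.countable_cover_nhdsWithin (s := Q) (f := N)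
    fun q hq => mem_nhdsWithin_of_mem_nhds (hN q hq)
  have := hc.to_subtype
  refine (polar_iUnion fun q : s => hp q (hs q.2)).mono ?_
  rintro _ ⟨x, hx, rfl⟩
  obtain ⟨q, hq, hxq⟩ := mem_iUnion₂.1 (hcov hx)
  exact mem_iUnion.2 ⟨⟨q, hq⟩, x, ⟨hx, hxq⟩, rfl⟩

theorem polar_sh (W : Set A) (L : A →L[ℂ] C2) :
    Polar (L '' {q ∈ W | AnAt W q ∧ Iso W q L ∧ ¬ Sh W L q}) := by
  have := second_countable_fd A
  refine polar_image fun q hq => ?_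
  obtain ⟨B, η, δ, oB, hqB, -, -, h1, hδ, hne, hg⟩ := loc hq.2.1 hq.2.2.1 univ_mem
  refine ⟨B, oB.mem_nhds hqB, (polar_of_neg (neg_zero isOpen_ball
    (convex_ball _ _).isPreconnected hδ hne)).mono ?_⟩
  rintro _ ⟨x, hx, rfl⟩
  have h2 := h1.sub x ⟨hx.1.1, hx.2⟩
  refine ⟨by_contra fun h3 => ?_, h2⟩
  obtain ⟨d, hd⟩ := hg _ h2 h3
  exact hx.1.2.2.2 (sh_of_good hx.1.1 (oB.mem_nhds hx.2) hd)

theorem polar_flat {t₀ : C2 × P} {η : ℝ} {δ : C2 × P → ℂ} (hδ : DifferentiableOn ℂ δ (ball t₀ η))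
    (hne : ∃ t ∈ ball t₀ η, δ t ≠ 0) :
    Polar (Prod.fst '' {t ∈ ball t₀ η | ∀ᶠ w in 𝓝 t.2, δ (t.1, w) = 0}) := by
  obtain ⟨t₁, ht₁, h1⟩ := hne
  rw [← ball_prod_same] at ht₁ hδ ⊢
  refine (polar_of_neg (neg_zero (δ := fun z => δ (z, t₁.2)) isOpen_ball
    (convex_ball t₀.1 η).isPreconnected (hδ.comp (by fun_prop) fun z hz => ⟨hz, ht₁.2⟩)
    ⟨t₁.1, ht₁.1, h1⟩)).mono ?_
  rintro _ ⟨t, ⟨ht, h2⟩, rfl⟩
  exact ⟨hol_id (f := fun w => δ (t.1, w)) isOpen_ball (convex_ball t₀.2 η).isPreconnected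
    (hδ.comp (by fun_prop) fun w hw => ⟨ht.1, hw⟩) ht.2 h2 _ ht₁.2, ht.1⟩

end Pool.Agent.Lib.MP_823829_an.LI
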